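import Pool.Agent.Q123.MPP.Lowg
import Pool.Agent.Q123.MPP.Nzs
import Pool.Agent.Q123.MPP.Tail
import Pool.Agent.Q193.MP_GROW
import Pool.Agent.Q193.MP_ITER
import Pool.Agent.Q277.MP.Small
import Pool.Agent.Q129.MP_BOX
import Pool.Agent.Q164.MPp.Intp
import Pool.Agent.Q153.MP_VDIM
import Pool.Agent.Q285.MP_AVOID
import Pool.Agent.Q198.MP_FIB
import Pool.Agent.Q198.MP_TUP
import Pool.Agent.Q38.MP_NORM
import Pool.Agent.Q176.MP.Smc
import Pool.Agent.Q129.MP_UPE
import Pool.Agent.Q237.MP_GELF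
import Pool.Agent.Q237.MP_FMIN
import Pool.Agent.Q237.MP_BIN
import Pool.Agent.Q210.MP.Linh
import Pool.Agent.Q210.MP.Proj
import Pool.Agent.Q222.MP_JPK
import Pool.Agent.Q96.MP_LEV
import Pool.Agent.Q96.MP_PPC
import Pool.Agent.Q96.MP_UPF
import Pool.Agent.Q195.MP_TRI
import Pool.Agent.Q285.MP_STAR
import Pool.Agent.Q275.MP.PIG
import Pool.Agent.Q275.MP.SLOW
import Pool.Agent.Q121.MP_EXA
import Pool.Agent.Q123.MPP.Lat
import Pool.Agent.Q182.MP_NZP
import Pool.Agent.Q164.MPp.Zlim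
import Pool.Agent.Q182.MP_PLIM
import Pool.Agent.Q190.MP.Limk
import Pool.Agent.Q190.MP.Tan
import Pool.Agent.Q38.MP_TOT

/-!
# Project MP: the statements put together
-/

set_option autoImplicit false

namespace Pool.Agent.Q256.MP

theorem lowg_all : S_lowg := Pool.Agent.Q123.MPP.lowg
theorem nzs_all : S_nzs := Pool.Agent.Q123.MPP.nzs lowg_all
theorem tail_all : S_tail := Pool.Agent.Q123.MPP.tail nzs_all
theorem small_all : S_small :=
  Pool.Agent.Q277.MP.small (Pool.Agent.Q193.MP.grow lowg_all) Pool.Agent.Q193.MP.iter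
theorem vdim_all : S_vdim :=
  Pool.Agent.Q153.MP_VDIM.vdim Pool.Agent.Q129.MP.box_dim Pool.Agent.Q164.MPp.intp
theorem fib_all : S_fib := Pool.Agent.Q198.MP.fib Pool.Agent.Q285.MP.avoid
theorem tup_all : S_tup := Pool.Agent.Q198.MP.tup fib_all
theorem norm_all : S_norm := Pool.Agent.Q38.MPN.norm_pts
theorem smc_all : S_smc := Pool.Agent.Q176.MP.smc vdim_all tup_all norm_all
theorem upe_all : S_upe := Pool.Agent.Q129.MP.upe tail_all small_all smc_all
theorem bin_all : S_bin := Pool.Agent.Q237.MP.bin Pool.Agent.Q237.MP.gelf Pool.Agent.Q237.MP.fmin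
theorem proj_all : S_proj := Pool.Agent.Q210.MP.proj Pool.Agent.Q210.MP.linh
theorem jpk_all : S_jpk := Pool.Agent.Q222.MPJPK.jpk bin_all proj_all vdim_all
theorem lev_all : S_lev := Pool.Agent.Q96.MP.lev tup_all norm_all jpk_all
theorem ppc_all : S_ppc := Pool.Agent.Q96.MP.ppc tail_all lev_all
theorem upf_all : S_upf := Pool.Agent.Q96.MP.upf upe_all ppc_all
theorem slow_all : S_slow :=
  Pool.Agent.Q275.MP.SLOW.slow Pool.Agent.Q195.MP_TRI.tri Pool.Agent.Q285.MPstar.star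
    Pool.Agent.Q275.MP.PIG.pig
theorem exa_all : S_exa := Pool.Agent.Q121.MP.exa upf_all slow_all
theorem zlim_all : S_zlim :=
  Pool.Agent.Q164.MPp.zlim Pool.Agent.Q123.MPP.lat Pool.Agent.Q123.MPP.sz
    Pool.Agent.Q182.MPNZP.nzp vdim_all fib_all
theorem plim_all : S_plim := Pool.Agent.Q182.MPPLIM.plim zlim_all upf_all
theorem limk_all : S_limk := Pool.Agent.Q190.MP.limk plim_all
theorem tan_all : S_tan := Pool.Agent.Q190.MP.tan limk_all lev_all tail_all exa_all
theorem tot_all : S_tot := Pool.Agent.Q38.MPT.tot tan_all upf_all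

end Pool.Agent.Q256.MP
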