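import Pool.Agent.Q256.MP.All
import Pool.Agent.Q137.MP.RINT
import Pool.Agent.Q181.MP_LINF
import Pool.Agent.Q277.MP_EXI
import Pool.Agent.Q123.MP_DIMQ
import Pool.Agent.Q285.MP_LOWC
import Pool.Agent.Q123.MP_POSI
import Pool.Agent.Q214.MP_ONLY

/-!
# Project MP, third part: the statements put together
-/

set_option autoImplicit false

namespace Pool.Agent.Q256.MP

theorem exi_all : S_exi :=
  Pool.Agent.Q277.MPX.exi Pool.Agent.Q137.MP.rint Pool.Agent.Q181.MP.linf
theorem posi_all : S_posi :=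
  Pool.Agent.Q123.MPPOSI.posi exi_all Pool.Agent.Q123.MPDIMQ.dimq Pool.Agent.Q285.MP.lowc
    Pool.Agent.Q123.MPP.sz Pool.Agent.Q182.MPNZP.nzp
theorem onl_all : S_onl := Pool.Agent.Q214.MPO.onl

end Pool.Agent.Q256.MP
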