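import Pool.Agent.Q256.MP.All

/-!
# Project MP: the limit law of the portrait

The graph of an endomorphism on its small points, for the endomorphisms with exactly `m` small points:
the number of the endomorphisms with a graph in `𝒢`, divided by `H ^ (Q - m N)`, converges to
`∑ G ∈ 𝒢, W G`, for every set `𝒢`.
-/

set_option autoImplicit false

open Height NumberField Filter Topology
open scoped LinearAlgebra.Projectivization

noncomputable section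

namespace Pool.Agent.Q256.MP

open Pool.Agent.W276.GE Pool.Agent.Q96.MP
open Pool.Agent.Q190.MP (Rp_mono fin_pts Im_unique fs mem_fs cnt_eq of_not_large lev_of_por ex_lev
  lv_disj ppt ppt_inj pt_ne is_pp Is gr_mono)

/-- the graph `{(p i, p (σ i))}` -/
def Gph {N m : ℕ} (x : (Fin m → Fin m) × (Fin m → Pt N)) : Set (Pt N × Pt N) :=
  Set.range fun i => (x.2 i, x.2 (x.1 i))

theorem fst_Gph {N m : ℕ} (x : (Fin m → Fin m) × (Fin m → Pt N)) :
    Prod.fst '' Gph x = Set.range x.2 := by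
  ext q
  constructor
  · rintro ⟨_, ⟨i, rfl⟩, rfl⟩
    exact ⟨i, rfl⟩
  · rintro ⟨i, rfl⟩
    exact ⟨_, ⟨i, rfl⟩, rfl⟩

/-- `F` has exactly `m` small points and acts on them with the graph `G` -/
def HasP (N D m : ℕ) {d : ℕ} (θ : ℝ) (H : ℕ) (G : Set (Pt N × Pt N)) (F : Sy N d) : Prop :=
  ∃ x : (Fin m → Fin m) × (Fin m → Pt N), Function.Injective x.2 ∧ Gph x = G ∧
    Sm N D θ H F = Set.range x.2 ∧ ∀ i, Im F (x.2 i) (x.2 (x.1 i))

theorem hasP_iff {N D m d : ℕ} {θ : ℝ} {H : ℕ} {F : Sy N d}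
    (x : (Fin m → Fin m) × (Fin m → Pt N)) (hx : Function.Injective x.2) :
    HasP N D m θ H (Gph x) F ↔
      Sm N D θ H F = Set.range x.2 ∧ ∀ i, Im F (x.2 i) (x.2 (x.1 i)) := by
  constructor
  · rintro ⟨y, hy, hyx, h1, h2⟩
    refine ⟨by rw [h1, ← fst_Gph, hyx, fst_Gph], fun i => ?_⟩
    have h3 : (x.2 i, x.2 (x.1 i)) ∈ Gph x := ⟨i, rfl⟩
    rw [← hyx] at h3
    obtain ⟨j, hj⟩ := h3
    have h5 := h2 j
    have h6 : y.2 j = x.2 i := congrArg Prod.fst hj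
    have h7 : y.2 (y.1 j) = x.2 (x.1 i) := congrArg Prod.snd hj
    rwa [h6, h7] at h5
  · rintro ⟨h1, h2⟩
    exact ⟨x, hx, rfl, h1, h2⟩

theorem hasP_fst {N D m d : ℕ} {θ : ℝ} {H : ℕ} {F : Sy N d} {G : Set (Pt N × Pt N)}
    (h : HasP N D m θ H G F) : Sm N D θ H F = Prod.fst '' G := by
  obtain ⟨x, -, rfl, h1, -⟩ := h
  rw [h1, fst_Gph]

/-- the graph of `F` on its small points -/
def port (N D : ℕ) {d : ℕ} (θ : ℝ) (H : ℕ) (F : Sy N d) : Set (Pt N × Pt N) :=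
  {x | x.1 ∈ Sm N D θ H F ∧ Im F x.1 x.2}

theorem hasP_port {N D m d : ℕ} {θ : ℝ} {H : ℕ} {F : Sy N d} {G : Set (Pt N × Pt N)}
    (hF : NoZero F) (h : HasP N D m θ H G F) : G = port N D θ H F := by
  obtain ⟨x, hx, rfl, h1, h2⟩ := h
  ext ⟨a, b⟩
  constructor
  · rintro ⟨i, hi⟩
    have ha : x.2 i = a := congrArg Prod.fst hi
    have hb : x.2 (x.1 i) = b := congrArg Prod.snd hi
    refine ⟨?_, ?_⟩
    · show a ∈ Sm N D θ H F
      rw [h1, ← ha]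
      exact ⟨i, rfl⟩
    · show Im F a b
      rw [← ha, ← hb]
      exact h2 i
  · rintro ⟨ha, hb⟩
    change a ∈ Sm N D θ H F at ha
    change Im F a b at hb
    rw [h1] at ha
    obtain ⟨i, rfl⟩ := ha
    refine ⟨i, ?_⟩
    change (x.2 i, x.2 (x.1 i)) = (x.2 i, b)
    rw [Im_unique hF (h2 i) hb]

theorem cnt_false {N d H : ℕ} {Φ : Sy N d → Prop} (h : ∀ F, ¬ Φ F) : cnt N d H Φ = 0 := by
  unfold cnt
  rw [Nat.cast_eq_zero, Set.ncard_eq_zero (cnt_set_finite Φ), Set.eq_empty_iff_forall_notMem]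
  intro F hF
  exact h F hF.2.2

theorem cnt_congr {N d H : ℕ} {Φ Ψ : Sy N d → Prop}
    (h : ∀ F ∈ Fb (N + 1) d H, NoZero F → (Φ F ↔ Ψ F)) : cnt N d H Φ = cnt N d H Ψ :=
  le_antisymm (cnt_mono fun F h1 h2 h3 => (h F h1 h2).1 h3)
    (cnt_mono fun F h1 h2 h3 => (h F h1 h2).2 h3)

theorem small_rp {N D d : ℕ} {θ : ℝ} {H : ℕ} {F : Sy N d} {p : Pt N} (h : p ∈ Sm N D θ H F) :
    p ∈ Rp N D (fun _ _ _ _ => True) := Rp_mono (fun _ _ _ _ _ => trivial) h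

theorem exists_W {N D m d : ℕ} {θ : ℝ}
    (h : ∀ (σ : Fin m → Fin m) (p : Fin m → Pt N), Function.Injective p →
      (∀ i, p i ∈ Rp N D (fun _ _ _ _ => True)) → ∃ v : ℝ,
        Tendsto (fun H : ℕ => cnt N d H (fun F => Sm N D θ H F = Set.range p ∧
          ∀ i, Im F (p i) (p (σ i))) / (H : ℝ) ^ (QQ N d - m * N)) atTop (𝓝 v)) :
    ∃ W : Set (Pt N × Pt N) → ℝ, (∀ G, W G ≠ 0 → ∃ x : (Fin m → Fin m) × (Fin m → Pt N),
        Function.Injective x.2 ∧ Gph x = G) ∧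
      ∀ G, Tendsto (fun H : ℕ => cnt N d H (HasP N D m θ H G) /
        (H : ℝ) ^ (QQ N d - m * N)) atTop (𝓝 (W G)) := by
  have key : ∀ G : Set (Pt N × Pt N), ∃ v : ℝ,
      (v ≠ 0 → ∃ x : (Fin m → Fin m) × (Fin m → Pt N), Function.Injective x.2 ∧ Gph x = G) ∧
      Tendsto (fun H : ℕ => cnt N d H (HasP N D m θ H G) /
        (H : ℝ) ^ (QQ N d - m * N)) atTop (𝓝 v) := by
    intro G
    by_cases hG : ∃ x : (Fin m → Fin m) × (Fin m → Pt N), Function.Injective x.2 ∧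
        (∀ i, x.2 i ∈ Rp N D (fun _ _ _ _ => True)) ∧ Gph x = G
    · obtain ⟨x, hx, hR, rfl⟩ := hG
      obtain ⟨v, hv⟩ := h x.1 x.2 hx hR
      refine ⟨v, fun _ => ⟨x, hx, rfl⟩, hv.congr fun H => ?_⟩
      rw [cnt_congr (Ψ := fun F => Sm N D θ H F = Set.range x.2 ∧
          ∀ i, Im F (x.2 i) (x.2 (x.1 i))) fun F _ _ => hasP_iff x hx]
    · refine ⟨0, fun h0 => absurd rfl h0, ?_⟩
      have : (fun H : ℕ => cnt N d H (HasP N D m θ H G) / (H : ℝ) ^ (QQ N d - m * N)) =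
          fun _ => 0 := by
        funext H
        rw [cnt_false, zero_div]
        rintro F ⟨x, hx, hxG, h1, -⟩
        exact hG ⟨x, hx, fun i => small_rp (F := F) (θ := θ) (H := H) (by rw [h1]; exact ⟨i, rfl⟩), hxG⟩
      rw [this]
      exact tendsto_const_nhds
  choose W hW using key
  exact ⟨W, fun G => (hW G).1, fun G => (hW G).2⟩

/-- the graphs of `m` points of the level `κ` -/
def TT (N D m κ : ℕ) : Set (Set (Pt N × Pt N)) :=
  {G | (∃ x : (Fin m → Fin m) × (Fin m → Pt N), Function.Injective x.2 ∧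
    (∀ i, x.2 i ∈ Rp N D (fun _ _ _ _ => True)) ∧ Gph x = G) ∧ Lv N D κ (Prod.fst '' G)}

theorem TT_finite (N D m κ : ℕ) : (TT N D m κ).Finite := by
  have hT := fin_pts N D (2 ^ (κ + 1)) (one_le_pow₀ one_le_two)
  have hI : {x : (Fin m → Fin m) × (Fin m → Pt N) |
      ∀ i, x.2 i ∈ Rp N D (fun _ _ _ P => mulHeight P ≤ 2 ^ (κ + 1))}.Finite := by
    refine ((Set.finite_univ (α := Fin m → Fin m)).prod
      (Set.Finite.pi' fun _ : Fin m => hT)).subset ?_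
    intro x hx
    exact ⟨Set.mem_univ _, hx⟩
  refine (hI.image Gph).subset ?_
  rintro G ⟨⟨x, hx, hR, rfl⟩, hL⟩
  refine ⟨x, fun i => ?_, rfl⟩
  rw [fst_Gph] at hL
  exact of_not_large (hR i) (hL.1 _ ⟨i, rfl⟩)

theorem limkG {N D m d : ℕ} {θ : ℝ} {W : Set (Pt N × Pt N) → ℝ}
    (hW : ∀ G, Tendsto (fun H : ℕ => cnt N d H (HasP N D m θ H G) /
      (H : ℝ) ^ (QQ N d - m * N)) atTop (𝓝 (W G))) (𝒢 : Set (Set (Pt N × Pt N))) (κ : ℕ) :
    Tendsto (fun H : ℕ => cnt N d H (fun F => (∃ G ∈ 𝒢, HasP N D m θ H G F) ∧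
        Lv N D κ (Sm N D θ H F)) / (H : ℝ) ^ (QQ N d - m * N)) atTop
      (𝓝 (∑ G ∈ (TT_finite N D m κ).toFinset, 𝒢.indicator W G)) := by
  classical
  have hcount : ∀ H : ℕ, cnt N d H (fun F => (∃ G ∈ 𝒢, HasP N D m θ H G F) ∧
      Lv N D κ (Sm N D θ H F)) =
      ∑ G ∈ (TT_finite N D m κ).toFinset.filter (· ∈ 𝒢), cnt N d H (HasP N D m θ H G) := by
    intro H
    simp only [cnt_eq]
    rw [← Nat.cast_sum, ← Finset.card_biUnion]
    · congr 2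
      ext F
      rw [mem_fs, Finset.mem_biUnion]
      constructor
      · rintro ⟨hF, hNZ, ⟨G, hG, hP⟩, hLv⟩
        refine ⟨G, Finset.mem_filter.2 ⟨(TT_finite N D m κ).mem_toFinset.2 ⟨?_, ?_⟩, hG⟩,
          mem_fs.2 ⟨hF, hNZ, hP⟩⟩
        · obtain ⟨x, hx, hxG, hSm, -⟩ := hP
          refine ⟨x, hx, fun i => ?_, hxG⟩
          have : x.2 i ∈ Sm N D θ H F := by
            rw [hSm]
            exact ⟨i, rfl⟩
          exact small_rp this
        · rw [← hasP_fst hP]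
          exact hLv
      · rintro ⟨G, hG, hFG⟩
        rw [Finset.mem_filter, Set.Finite.mem_toFinset] at hG
        rw [mem_fs] at hFG
        refine ⟨hFG.1, hFG.2.1, ⟨G, hG.2, hFG.2.2⟩, ?_⟩
        rw [hasP_fst hFG.2.2]
        exact hG.1.2
    · intro G _ G' _ hne
      rw [Function.onFun, Finset.disjoint_left]
      intro F hF hF'
      rw [mem_fs] at hF hF'
      exact hne ((hasP_port hF.2.1 hF.2.2).trans (hasP_port hF.2.1 hF'.2.2).symm)
  have hsum : ∑ G ∈ (TT_finite N D m κ).toFinset, 𝒢.indicator W G =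
      ∑ G ∈ (TT_finite N D m κ).toFinset.filter (· ∈ 𝒢), W G := by
    rw [Finset.sum_filter]
    refine Finset.sum_congr rfl fun G _ => ?_
    rw [Set.indicator_apply]
  rw [hsum]
  simp_rw [hcount, Finset.sum_div]
  exact tendsto_finsetSum _ fun G _ => hW G

theorem por_of_has {N D m d : ℕ} {θ : ℝ} {H : ℕ} {F : Sy N d} {𝒢 : Set (Set (Pt N × Pt N))}
    (h : ∃ G ∈ 𝒢, HasP N D m θ H G F) :
    Por N D θ (Set.univ : Set (Fin m → Fin m)) H F := by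
  obtain ⟨G, -, x, hx, -, h1, h2⟩ := h
  exact ⟨x.1, Set.mem_univ _, x.2, hx, h1, h2⟩

/-- the sum of the numbers of the systems of the levels below `L` -/
theorem sum_levG {N D d : ℕ} (θ : ℝ) (H L : ℕ) (Φ : Sy N d → Prop) :
    ∑ κ ∈ Finset.range L, cnt N d H (fun F => Φ F ∧ Lv N D κ (Sm N D θ H F)) ≤
      cnt N d H Φ := by
  classical
  simp only [cnt_eq]
  rw [← Nat.cast_sum, ← Finset.card_biUnion]
  · refine Nat.cast_le.2 (Finset.card_le_card ?_)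
    intro F hF
    rw [Finset.mem_biUnion] at hF
    obtain ⟨κ, -, hF⟩ := hF
    rw [mem_fs] at hF ⊢
    exact ⟨hF.1, hF.2.1, hF.2.2.1⟩
  · intro κ _ κ' _ hne
    rw [Function.onFun, Finset.disjoint_left]
    intro F hF hF'
    rw [mem_fs] at hF hF'
    exact hne (lv_disj hF.2.2.2 hF'.2.2.2)

theorem tanG {N D m d : ℕ} (hN : 1 ≤ N) (hm : 1 ≤ m) {θ : ℝ} {W : Set (Pt N × Pt N) → ℝ}
    (hW : ∀ G, Tendsto (fun H : ℕ => cnt N d H (HasP N D m θ H G) /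
      (H : ℝ) ^ (QQ N d - m * N)) atTop (𝓝 (W G)))
    (C2 : ℝ) (hC2 : 0 < C2)
    (hlev : ∀ H : ℕ, 1 ≤ H → ∀ κ : ℕ, (2 : ℝ) ^ κ ≤ H →
      cnt N d H (fun F => ∃ z : Fin m → Fin (N + 1) → ℂ, Sep z ∧
        (∀ i, Rep (N + 1) D
          (fun K _ _ P => mulHeight P ≤ 2 ^ (κ + 1) ∧ mulHeight (fm F K P) ≤ 2 ^ (κ + 1)) (z i)) ∧
        ∃ i, Rep (N + 1) D (fun _ _ _ P => (2 : ℝ) ^ κ ≤ mulHeight P) (z i)) ≤
        C2 * (H : ℝ) ^ (QQ N d - m * N) * (1 / 2) ^ κ)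
    (C3 : ℝ) (hC3 : 0 < C3)
    (htail : ∀ H : ℕ, 1 ≤ H → ∀ κ : ℕ,
      cnt N d H (Tl D 1 κ) ≤ C3 * (H : ℝ) ^ (QQ N d - N) * (1 / 2) ^ (m * N * κ))
    (𝒢 : Set (Set (Pt N × Pt N))) :
    Summable (fun κ => ∑ G ∈ (TT_finite N D m κ).toFinset, 𝒢.indicator W G) ∧
    Tendsto (fun H : ℕ => cnt N d H (fun F => ∃ G ∈ 𝒢, HasP N D m θ H G F) /
      (H : ℝ) ^ (QQ N d - m * N)) atTop
      (𝓝 (∑' κ, ∑ G ∈ (TT_finite N D m κ).toFinset, 𝒢.indicator W G)) := by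
  classical
  have hv := fun κ => limkG hW 𝒢 κ
  set v : ℕ → ℝ := fun κ => ∑ G ∈ (TT_finite N D m κ).toFinset, 𝒢.indicator W G with hvdef
  let b : ℕ → ℕ → ℝ := fun κ H =>
    cnt N d H (fun F => (∃ G ∈ 𝒢, HasP N D m θ H G F) ∧ Lv N D κ (Sm N D θ H F))
  let B : ℕ → ℝ := fun H => cnt N d H (fun F => ∃ G ∈ 𝒢, HasP N D m θ H G F)
  let r : ℕ → ℝ := fun H => (H : ℝ) ^ (QQ N d - m * N)
  let f : ℕ → ℕ → ℝ := fun H κ => if (2 : ℝ) ^ κ ≤ H then b κ H / r H else 0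
  have hb0 : ∀ κ H, 0 ≤ b κ H := fun κ H => cnt_nonneg _
  have hr0 : ∀ H, 1 ≤ H → 0 < r H := by
    intro H hH
    have : (0 : ℝ) < H := by exact_mod_cast hH
    positivity
  have hfb0 : ∀ H : ℕ, 1 ≤ H → ∀ κ : ℕ, (2 : ℝ) ^ κ ≤ H → b κ H / r H ≤ C2 * (1 / 2) ^ κ := by
    intro H hH κ hk
    rw [div_le_iff₀ (hr0 H hH)]
    refine (cnt_mono fun F _ hF hP => lev_of_por hF (por_of_has hP.1) hP.2).trans
        ((hlev H hH κ hk).trans_eq ?_)
    ring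
  have hfb : ∀ H, 1 ≤ H → ∀ κ, ‖f H κ‖ ≤ C2 * (1 / 2) ^ κ := by
    intro H hH κ
    by_cases hk : (2 : ℝ) ^ κ ≤ H
    · have e : f H κ = b κ H / r H := if_pos hk
      rw [e, Real.norm_of_nonneg (div_nonneg (hb0 κ H) (hr0 H hH).le)]
      exact hfb0 H hH κ hk
    · have e : f H κ = 0 := if_neg hk
      rw [e, norm_zero]
      positivity
  have hft : ∀ κ, Tendsto (fun H => f H κ) atTop (𝓝 (v κ)) := by
    intro κ
    refine (hv κ).congr' ?_
    filter_upwards [eventually_ge_atTop (2 ^ κ)] with H hH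
    have hk : (2 : ℝ) ^ κ ≤ H := by exact_mod_cast hH
    exact (if_pos hk).symm
  have hv0 : ∀ κ, 0 ≤ v κ := by
    intro κ
    refine ge_of_tendsto (hv κ) ?_
    filter_upwards [eventually_ge_atTop 1] with H hH
    exact div_nonneg (hb0 κ H) (hr0 H hH).le
  have hvle : ∀ κ, v κ ≤ C2 * (1 / 2) ^ κ := by
    intro κ
    refine le_of_tendsto (hv κ) ?_
    filter_upwards [eventually_ge_atTop (max 1 (2 ^ κ))] with H hH
    have h1 : 1 ≤ H := (le_max_left _ _).trans hH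
    have h2 : 2 ^ κ ≤ H := (le_max_right _ _).trans hH
    exact hfb0 H h1 κ (by exact_mod_cast h2)
  have hsv : Summable v :=
    Summable.of_nonneg_of_le hv0 hvle (summable_geometric_two.mul_left _)
  refine ⟨hsv, ?_⟩
  have hsum : Tendsto (fun H => ∑' κ, f H κ) atTop (𝓝 (∑' κ, v κ)) := by
    refine tendsto_tsum_of_dominated_convergence (bound := fun κ => C2 * (1 / 2) ^ κ) ?_ hft ?_
    · exact summable_geometric_two.mul_left _
    · filter_upwards [eventually_ge_atTop 1] with H hH κ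
      exact hfb H hH κ
  have hfs : ∀ H, 1 ≤ H →
      ∑' κ, f H κ = (∑ κ ∈ Finset.range (Nat.log 2 H + 1), b κ H) / r H := by
    intro H hH
    rw [tsum_eq_sum (s := Finset.range (Nat.log 2 H + 1)), Finset.sum_div]
    · refine Finset.sum_congr rfl fun κ hκ => if_pos ?_
      have h5 : 2 ^ κ ≤ H :=
        Nat.pow_le_of_le_log (by omega) (by have := Finset.mem_range.1 hκ; omega)
      exact_mod_cast h5
    · intro κ hκ
      refine if_neg fun h5 => hκ (Finset.mem_range.2 ?_)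
      have h6 : 2 ^ κ ≤ H := by exact_mod_cast h5
      have h7 := Nat.le_log_of_pow_le (by norm_num : 1 < 2) h6
      omega
  have hlow : ∀ H, 1 ≤ H → ∑' κ, f H κ ≤ B H / r H := by
    intro H hH
    rw [hfs H hH]
    exact div_le_div_of_nonneg_right (sum_levG θ H _ _) (hr0 H hH).le
  have hup : ∀ H, 1 ≤ H → B H / r H ≤ ∑' κ, f H κ + C3 / H := by
    intro H hH
    have hH1 : (1 : ℝ) ≤ H := by exact_mod_cast hH
    have hHL : (H : ℝ) ≤ 2 ^ (Nat.log 2 H + 1) := by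
      have := (Nat.lt_pow_succ_log_self (by norm_num : 1 < 2) H).le
      exact_mod_cast this
    have e1 : B H ≤ cnt N d H (Tl D 1 (Nat.log 2 H + 1)) +
        ∑ κ ∈ Finset.range (Nat.log 2 H + 1), b κ H := by
      refine (cnt_or (Ψ := Tl D 1 (Nat.log 2 H + 1)) (Θ := fun F => ¬ Tl D 1 (Nat.log 2 H + 1) F ∧
        ∃ G ∈ 𝒢, HasP N D m θ H G F) ?_).trans ?_
      · intro F _ _ h
        by_cases hh : Tl D 1 (Nat.log 2 H + 1) F
        · exact Or.inl hh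
        · exact Or.inr ⟨hh, h⟩
      · refine add_le_add le_rfl (cnt_ex (fun κ F => (∃ G ∈ 𝒢, HasP N D m θ H G F) ∧
          Lv N D κ (Sm N D θ H F)) _ ?_)
        rintro F - hF ⟨hT, hP⟩
        obtain ⟨κ, hκ, -, hL⟩ := ex_lev hm hF (por_of_has hP) hT
        exact ⟨κ, hκ, hP, hL⟩
    have e2 : cnt N d H (Tl D 1 (Nat.log 2 H + 1)) ≤ C3 / H * r H := by
      refine (htail H hH (Nat.log 2 H + 1)).trans ?_
      have h5 : (1 / 2 : ℝ) ^ (m * N * (Nat.log 2 H + 1)) =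
          1 / (2 ^ (Nat.log 2 H + 1)) ^ (m * N) := by
        rw [one_div_pow, ← pow_mul, mul_comm (Nat.log 2 H + 1)]
      have hQ : N ≤ QQ N d := by
        have h5 : 0 < Fintype.card (E (N + 1) d) := by
          rw [card_E]
          exact Nat.choose_pos (Nat.le_add_right N d)
        change N ≤ (N + 1) * Fintype.card (E (N + 1) d)
        nlinarith
      rw [h5, mul_one_div, div_le_iff₀ (by positivity), mul_assoc, div_mul_eq_mul_div,
        le_div_iff₀ (by positivity), mul_assoc]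
      apply mul_le_mul_of_nonneg_left _ hC3.le
      calc (H : ℝ) ^ (QQ N d - N) * H = (H : ℝ) ^ (QQ N d - N + 1) := (pow_succ _ _).symm
        _ ≤ (H : ℝ) ^ ((QQ N d - m * N) + m * N) := pow_le_pow_right₀ hH1 (by omega)
        _ = (H : ℝ) ^ (QQ N d - m * N) * (H : ℝ) ^ (m * N) := pow_add _ _ _
        _ ≤ (H : ℝ) ^ (QQ N d - m * N) * (2 ^ (Nat.log 2 H + 1)) ^ (m * N) := by gcongr
    rw [hfs H hH, div_le_iff₀ (hr0 H hH), add_mul, div_mul_cancel₀ _ (hr0 H hH).ne']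
    linarith
  have h5 : Tendsto (fun H : ℕ => ∑' κ, f H κ + C3 / (H : ℝ)) atTop (𝓝 (∑' κ, v κ)) := by
    have h6 : Tendsto (fun H : ℕ => C3 / (H : ℝ)) atTop (𝓝 0) :=
      tendsto_const_div_atTop_nhds_zero_nat C3
    have h7 := hsum.add h6
    rwa [add_zero] at h7
  refine tendsto_of_tendsto_of_tendsto_of_le_of_le' hsum h5 ?_ ?_
  · filter_upwards [eventually_ge_atTop 1] with H hH
    exact hlow H hH
  · filter_upwards [eventually_ge_atTop 1] with H hH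
    exact hup H hH

/-- the sum over the levels is the sum over all graphs -/
theorem tsum_levels {N D m : ℕ} {f : Set (Pt N × Pt N) → ℝ} (hf0 : ∀ G, 0 ≤ f G)
    (hfT : ∀ G, f G ≠ 0 → ∃ κ, G ∈ TT N D m κ)
    (hs : Summable fun κ => ∑ G ∈ (TT_finite N D m κ).toFinset, f G) :
    HasSum f (∑' κ, ∑ G ∈ (TT_finite N D m κ).toFinset, f G) := by
  classical
  have hU : ∀ L : ℕ, ∑ G ∈ (Finset.range L).biUnion (fun κ => (TT_finite N D m κ).toFinset), f G =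
      ∑ κ ∈ Finset.range L, ∑ G ∈ (TT_finite N D m κ).toFinset, f G := by
    intro L
    rw [Finset.sum_biUnion]
    intro κ _ κ' _ hne
    rw [Function.onFun, Finset.disjoint_left]
    intro G hG hG'
    rw [Set.Finite.mem_toFinset] at hG hG'
    exact hne (lv_disj hG.2 hG'.2)
  have hv0 : ∀ κ, 0 ≤ ∑ G ∈ (TT_finite N D m κ).toFinset, f G := fun κ =>
    Finset.sum_nonneg fun G _ => hf0 G
  refine hasSum_of_isLUB_of_nonneg _ hf0 ⟨?_, ?_⟩
  · rintro _ ⟨s, rfl⟩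
    have key : ∀ G, ∃ κ, f G ≠ 0 → G ∈ TT N D m κ := by
      intro G
      by_cases h : f G ≠ 0
      · obtain ⟨κ, hκ⟩ := hfT G h
        exact ⟨κ, fun _ => hκ⟩
      · exact ⟨0, fun h' => absurd h' h⟩
    choose κ hκ using key
    let L : ℕ := s.sup κ + 1
    calc ∑ G ∈ s, f G = ∑ G ∈ s.filter (fun G => f G ≠ 0), f G := (Finset.sum_filter_ne_zero s).symm
      _ ≤ ∑ G ∈ (Finset.range L).biUnion (fun κ => (TT_finite N D m κ).toFinset), f G := by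
          refine Finset.sum_le_sum_of_subset_of_nonneg ?_ fun G _ _ => hf0 G
          intro G hG
          rw [Finset.mem_filter] at hG
          rw [Finset.mem_biUnion]
          refine ⟨κ G, Finset.mem_range.2 (Nat.lt_succ_of_le (Finset.le_sup hG.1)), ?_⟩
          rw [Set.Finite.mem_toFinset]
          exact hκ G hG.2
      _ = ∑ κ ∈ Finset.range L, ∑ G ∈ (TT_finite N D m κ).toFinset, f G := hU L
      _ ≤ _ := hs.sum_le_tsum _ fun κ _ => hv0 κ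
  · intro b hb
    refine le_of_tendsto' hs.hasSum.tendsto_sum_nat fun L => ?_
    rw [← hU L]
    exact hb ⟨_, rfl⟩

theorem lawG {N D m d : ℕ} (hN : 1 ≤ N) (hm : 1 ≤ m) {θ : ℝ} {W : Set (Pt N × Pt N) → ℝ}
    (hW : ∀ G, Tendsto (fun H : ℕ => cnt N d H (HasP N D m θ H G) /
      (H : ℝ) ^ (QQ N d - m * N)) atTop (𝓝 (W G)))
    (C2 : ℝ) (hC2 : 0 < C2)
    (hlev : ∀ H : ℕ, 1 ≤ H → ∀ κ : ℕ, (2 : ℝ) ^ κ ≤ H →
      cnt N d H (fun F => ∃ z : Fin m → Fin (N + 1) → ℂ, Sep z ∧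
        (∀ i, Rep (N + 1) D
          (fun K _ _ P => mulHeight P ≤ 2 ^ (κ + 1) ∧ mulHeight (fm F K P) ≤ 2 ^ (κ + 1)) (z i)) ∧
        ∃ i, Rep (N + 1) D (fun _ _ _ P => (2 : ℝ) ^ κ ≤ mulHeight P) (z i)) ≤
        C2 * (H : ℝ) ^ (QQ N d - m * N) * (1 / 2) ^ κ)
    (C3 : ℝ) (hC3 : 0 < C3)
    (htail : ∀ H : ℕ, 1 ≤ H → ∀ κ : ℕ,
      cnt N d H (Tl D 1 κ) ≤ C3 * (H : ℝ) ^ (QQ N d - N) * (1 / 2) ^ (m * N * κ)) :
    (∀ G, 0 ≤ W G) ∧ Summable W ∧ ∀ 𝒢 : Set (Set (Pt N × Pt N)),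
    Tendsto (fun H : ℕ => cnt N d H (fun F => ∃ G ∈ 𝒢, HasP N D m θ H G F) /
      (H : ℝ) ^ (QQ N d - m * N)) atTop (𝓝 (∑' G, 𝒢.indicator W G)) := by
  classical
  have hW0 : ∀ G, 0 ≤ W G := by
    intro G
    refine ge_of_tendsto' (hW G) fun H => ?_
    exact div_nonneg (cnt_nonneg _) (by positivity)
  have hT := fun 𝒢 => tanG hN hm hW C2 hC2 hlev C3 hC3 htail 𝒢
  have hWT : ∀ G, W G ≠ 0 → ∃ κ, G ∈ TT N D m κ := by
    intro G hG
    by_contra hcon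
    push Not at hcon
    apply hG
    have h1 := (hT {G}).2
    have h2 : (fun H : ℕ => cnt N d H (fun F => ∃ G' ∈ ({G} : Set (Set (Pt N × Pt N))),
        HasP N D m θ H G' F) / (H : ℝ) ^ (QQ N d - m * N)) =
        fun H : ℕ => cnt N d H (HasP N D m θ H G) / (H : ℝ) ^ (QQ N d - m * N) := by
      funext H
      rw [cnt_congr (Ψ := HasP N D m θ H G) fun F _ _ => ?_]
      simp
    rw [h2] at h1
    have h3 : (∑' κ, ∑ G' ∈ (TT_finite N D m κ).toFinset,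
        ({G} : Set (Set (Pt N × Pt N))).indicator W G') = 0 := by
      have h4 : ∀ κ, ∑ G' ∈ (TT_finite N D m κ).toFinset,
          ({G} : Set (Set (Pt N × Pt N))).indicator W G' = 0 := by
        intro κ
        refine Finset.sum_eq_zero fun G' hG' => ?_
        rw [Set.Finite.mem_toFinset] at hG'
        refine Set.indicator_of_notMem ?_ _
        rintro rfl
        exact hcon κ hG'
      rw [tsum_congr h4, tsum_zero]
    rw [h3] at h1
    exact tendsto_nhds_unique (hW G) h1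
  have key : ∀ 𝒢 : Set (Set (Pt N × Pt N)), HasSum (𝒢.indicator W)
      (∑' κ, ∑ G ∈ (TT_finite N D m κ).toFinset, 𝒢.indicator W G) := by
    intro 𝒢
    refine tsum_levels (fun G => Set.indicator_nonneg (fun G _ => hW0 G) G) ?_ (hT 𝒢).1
    intro G hG
    exact hWT G fun h0 => hG (by rw [Set.indicator_apply, h0, ite_self])
  refine ⟨hW0, ?_, fun 𝒢 => ?_⟩
  · have := (key Set.univ).summable
    rwa [Set.indicator_univ] at this
  · rw [(key 𝒢).tsum_eq]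
    exact (hT 𝒢).2

/-! ### Other numbers `θ` -/

theorem sm_mono {N D d : ℕ} {θ θ' : ℝ} (h : θ ≤ θ') {H : ℕ} {F : Sy N d} :
    Sm N D θ H F ⊆ Sm N D θ' H F :=
  Rp_mono fun _ _ _ _ hP => hP.imp id fun h1 h2 => h1 (gr_mono h h2)

/-- if `F` acts on its small points, they are preperiodic, hence small for every `θ` -/
theorem sm_sub {N D m d : ℕ} {θ θ' : ℝ} {H : ℕ} {F : Sy N d} (hF : NoZero F)
    {x : (Fin m → Fin m) × (Fin m → Pt N)} (h1 : Sm N D θ' H F = Set.range x.2)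
    (h2 : ∀ i, Im F (x.2 i) (x.2 (x.1 i))) : Sm N D θ' H F ⊆ Sm N D θ H F := by
  intro p hp
  have hp' := hp
  rw [h1] at hp'
  obtain ⟨i, rfl⟩ := hp'
  obtain ⟨z, hz, hpz, K, i1, i2, φ, P, hK, hP, -, hzP⟩ := hp
  have h3 : Is φ P (x.2 i) := by
    refine ⟨by rw [← hzP]; exact hz, ?_⟩
    rw [hpz]
    congr 1
    exact hzP.symm
  exact ⟨z, hz, hpz, K, i1, i2, φ, P, hK, hP, Or.inl (is_pp hF h2 h3), hzP⟩

theorem encard_range {α : Type*} {m : ℕ} {p : Fin m → α} (hp : Function.Injective p) :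
    (Set.range p).encard = m := by
  rw [← Set.image_univ, hp.encard_image, Set.encard_univ]
  simp

theorem has_of_has {N D m d : ℕ} {θ θ' : ℝ} (h : θ ≤ θ') {H : ℕ} {F : Sy N d} (hF : NoZero F)
    {G : Set (Pt N × Pt N)} (hG : HasP N D m θ' H G F) : HasP N D m θ H G F := by
  obtain ⟨x, hx, hxG, h1, h2⟩ := hG
  exact ⟨x, hx, hxG, by rw [← h1]; exact (sm_mono h).antisymm (sm_sub hF h1 h2), h2⟩

theorem has_or_bad {N D m d : ℕ} {θ θ' θ5 : ℝ} (h : θ ≤ θ') (h5 : 0 < θ5) (hd : 1 ≤ d)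
    (h' : θ' ≤ θ5 / (d : ℝ) ^ m) {H : ℕ} (hH : 1 ≤ H) {F : Sy N d} (hF : NoZero F)
    (hm : (m : ℕ∞) ≤ (Sm N D θ H F).encard) :
    (∃ G, HasP N D m θ' H G F) ∨
      Many (N + 1) D (m + 1) (fun K _ _ P => Pp F K P ∨ ¬ Gr θ5 H F K P) := by
  rcases Pool.Agent.Q38.MPT.por_or h5 hd h' hH hF (hm.trans (Set.encard_le_encard (sm_mono h)))
    with h1 | h1
  · obtain ⟨σ, -, p, hp, hs, hI⟩ := h1
    exact Or.inl ⟨_, (σ, p), hp, rfl, hs, hI⟩
  · exact Or.inr h1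

theorem card_of_has {N D m d : ℕ} {θ : ℝ} {H : ℕ} {F : Sy N d} {G : Set (Pt N × Pt N)}
    (hG : HasP N D m θ H G F) : (Sm N D θ H F).encard = m := by
  obtain ⟨x, hx, -, h1, -⟩ := hG
  rw [h1, encard_range hx]

/-- negligible sets of systems -/
theorem lim_transfer {N m d : ℕ} (hQ : (m + 1) * N ≤ QQ N d) (hN : 1 ≤ N) {C v : ℝ}
    {Φ Ψ Θ : ℕ → Sy N d → Prop} (hC : 0 < C)
    (hΘ : ∀ H : ℕ, 1 ≤ H → cnt N d H (Θ H) ≤ C * (H : ℝ) ^ (QQ N d - (m + 1) * N))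
    (h1 : ∀ H : ℕ, 1 ≤ H → cnt N d H (Φ H) ≤ cnt N d H (Ψ H) + cnt N d H (Θ H))
    (h2 : ∀ H : ℕ, 1 ≤ H → cnt N d H (Ψ H) ≤ cnt N d H (Φ H) + cnt N d H (Θ H))
    (hlim : Tendsto (fun H : ℕ => cnt N d H (Ψ H) / (H : ℝ) ^ (QQ N d - m * N)) atTop (𝓝 v)) :
    Tendsto (fun H : ℕ => cnt N d H (Φ H) / (H : ℝ) ^ (QQ N d - m * N)) atTop (𝓝 v) := by
  have hb : ∀ H : ℕ, 1 ≤ H → cnt N d H (Θ H) / (H : ℝ) ^ (QQ N d - m * N) ≤ C / H := by
    intro H hH
    have hHr : (1 : ℝ) ≤ H := by exact_mod_cast hH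
    have hH0 : (0 : ℝ) < (H : ℝ) ^ (QQ N d - m * N) := by positivity
    have hpow : (H : ℝ) ^ (QQ N d - (m + 1) * N) * H ≤ (H : ℝ) ^ (QQ N d - m * N) := by
      rw [← pow_succ]
      refine pow_le_pow_right₀ hHr ?_
      have : (m + 1) * N = m * N + N := by ring
      omega
    rw [div_le_div_iff₀ hH0 (by positivity)]
    calc cnt N d H (Θ H) * H ≤ C * (H : ℝ) ^ (QQ N d - (m + 1) * N) * H :=
          mul_le_mul_of_nonneg_right (hΘ H hH) (by positivity)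
      _ = C * ((H : ℝ) ^ (QQ N d - (m + 1) * N) * H) := by ring
      _ ≤ C * (H : ℝ) ^ (QQ N d - m * N) := mul_le_mul_of_nonneg_left hpow hC.le
  have h3 : Tendsto (fun H : ℕ => C / (H : ℝ)) atTop (𝓝 0) :=
    tendsto_const_div_atTop_nhds_zero_nat C
  have h4 := hlim.add h3
  have h5 := hlim.sub h3
  rw [add_zero] at h4
  rw [sub_zero] at h5
  refine tendsto_of_tendsto_of_tendsto_of_le_of_le' h5 h4 ?_ ?_
  · filter_upwards [eventually_ge_atTop 1] with H hH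
    have h6 := h2 H hH
    have h7 := hb H hH
    have hHr : (1 : ℝ) ≤ H := by exact_mod_cast hH
    have hH0 : (0 : ℝ) < (H : ℝ) ^ (QQ N d - m * N) := by positivity
    have h8 : cnt N d H (Ψ H) / (H : ℝ) ^ (QQ N d - m * N) ≤
        cnt N d H (Φ H) / (H : ℝ) ^ (QQ N d - m * N) +
          cnt N d H (Θ H) / (H : ℝ) ^ (QQ N d - m * N) := by
      rw [← add_div]
      exact div_le_div_of_nonneg_right h6 hH0.le
    linarith
  · filter_upwards [eventually_ge_atTop 1] with H hH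
    have h6 := h1 H hH
    have h7 := hb H hH
    have hHr : (1 : ℝ) ≤ H := by exact_mod_cast hH
    have hH0 : (0 : ℝ) < (H : ℝ) ^ (QQ N d - m * N) := by positivity
    have h8 : cnt N d H (Φ H) / (H : ℝ) ^ (QQ N d - m * N) ≤
        cnt N d H (Ψ H) / (H : ℝ) ^ (QQ N d - m * N) +
          cnt N d H (Θ H) / (H : ℝ) ^ (QQ N d - m * N) := by
      rw [← add_div]
      exact div_le_div_of_nonneg_right h6 hH0.le
    linarith

theorem exa_has {N D d m : ℕ} (hN : 1 ≤ N) (hD : 1 ≤ D) {θ θ₁ : ℝ} (hθ : θ ≤ θ₁)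
    {σ : Fin m → Fin m} {H : ℕ} {F : Sy N d} (hF : NoZero F)
    (h1 : ∀ i : Fin m, ∃ c : ℤ, c ≠ 0 ∧ ∀ j, ev (F j) (pt N i) = c * pt N (σ i) j)
    (h2 : ∀ z : Fin (N + 1) → ℂ,
      Rep (N + 1) D (fun K _ _ P => Pp F K P ∨ ¬ Gr θ₁ H F K P) z →
        ∃ (i : Fin m) (c : ℂ), z = c • fun j => (pt N i j : ℂ)) :
    HasP N D m θ H (Gph (σ, ppt N m)) F := by
  have hIm : ∀ i, Im F (ppt N m i) (ppt N m (σ i)) := by
    intro i
    obtain ⟨c, hc, hcj⟩ := h1 i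
    obtain ⟨a, ha⟩ := Projectivization.exists_smul_eq_mk_rep ℂ _ (pt_ne N i)
    obtain ⟨b, hb⟩ := Projectivization.exists_smul_eq_mk_rep ℂ _ (pt_ne N (σ i))
    have hb0 : (b : ℂ) ≠ 0 := b.ne_zero
    refine ⟨(a : ℂ) ^ d * c * (b : ℂ)⁻¹, fun j => ?_⟩
    have e1 : ev (F j) (ppt N m i).rep = (a : ℂ) ^ d * ((c : ℂ) * (pt N (σ i) j : ℂ)) := by
      have h3 : (ppt N m i).rep = fun l => (a : ℂ) * (pt N i l : ℂ) := ha.symm
      have h4 := ev_map (Int.castRingHom ℂ) (F j) (pt N i)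
      rw [hcj j, map_mul] at h4
      rw [h3, ev_smul]
      congr 1
      exact h4.symm
    have e2 : (ppt N m (σ i)).rep j = (b : ℂ) * (pt N (σ i) j : ℂ) := (congrFun hb j).symm
    rw [e1, e2]
    field_simp
  refine ⟨(σ, ppt N m), ppt_inj hN, rfl, ?_, hIm⟩
  ext q
  constructor
  · rintro ⟨z, hz, rfl, K, i1, i2, φ, P, hK, hP, hPp, hzP⟩
    have hR : Rep (N + 1) D (fun K _ _ P => Pp F K P ∨ ¬ Gr θ₁ H F K P) z :=
      ⟨K, i1, i2, φ, P, hK, hP, hPp.imp id (fun h h' => h (gr_mono hθ h')), hzP⟩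
    obtain ⟨i, c, hc⟩ := h2 z hR
    refine ⟨i, Eq.symm ?_⟩
    change _ = ppt N m i
    rw [ppt, Projectivization.mk_eq_mk_iff']
    exact ⟨c, hc.symm⟩
  · rintro ⟨i, rfl⟩
    have hcast : (fun j => (pt N i j : ℂ)) = fun j => (algebraMap ℚ ℂ) ((pt N i j : ℤ) : ℚ) := by
      funext j
      simp
    have hne : (fun j => (algebraMap ℚ ℂ) ((pt N i j : ℤ) : ℚ)) ≠ 0 := by
      rw [← hcast]
      exact pt_ne N i
    have hP : (fun j => ((pt N i j : ℤ) : ℚ)) ≠ 0 := by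
      intro h0
      apply hne
      funext j
      rw [congrFun h0 j]
      simp
    have hIs : Is (algebraMap ℚ ℂ) (fun j => ((pt N i j : ℤ) : ℚ)) (ppt N m i) := by
      refine ⟨hne, ?_⟩
      rw [ppt]
      congr 1
    refine ⟨_, pt_ne N i, rfl, ℚ, inferInstance, inferInstance, algebraMap ℚ ℂ, _, ?_, hP,
      Or.inl (is_pp hF hIm hIs), hcast⟩
    rw [Module.finrank_self]
    exact hD

/-- **The limit law of the portrait.** -/
theorem law (N D m : ℕ) (hN : 1 ≤ N) (hD : 1 ≤ D) (hm : 1 ≤ m) : ∃ d₀ : ℕ, ∀ d, d₀ ≤ d →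
    (m + 1) * N ≤ QQ N d ∧ ∃ (θ₀ : ℝ) (W : Set (Pt N × Pt N) → ℝ), 0 < θ₀ ∧ (∀ G, 0 ≤ W G) ∧
      Summable W ∧ (∀ G, W G ≠ 0 → ∃ x : (Fin m → Fin m) × (Fin m → Pt N),
        Function.Injective x.2 ∧ Gph x = G) ∧
      (∀ σ : Fin m → Fin m, 0 < W (Gph (σ, ppt N m))) ∧
      ∀ θ : ℝ, θ ≤ θ₀ →
        (∀ 𝒢 : Set (Set (Pt N × Pt N)),
          Tendsto (fun H : ℕ => cnt N d H (fun F => (Sm N D θ H F).encard = m ∧
            port N D θ H F ∈ 𝒢) / (H : ℝ) ^ (QQ N d - m * N)) atTop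
            (𝓝 (∑' G, 𝒢.indicator W G))) ∧
        Tendsto (fun H : ℕ => cnt N d H (fun F => (m : ℕ∞) ≤ (Sm N D θ H F).encard) /
            (H : ℝ) ^ (QQ N d - m * N)) atTop (𝓝 (∑' G, W G)) := by
  classical
  obtain ⟨d1, hd1⟩ := plim_all N D m hN hD hm
  obtain ⟨d2, hd2⟩ := lev_all N D m hN hD hm
  obtain ⟨d3, hd3⟩ := tail_all N D 1 (m * N) hN hD le_rfl
  obtain ⟨d4, hd4⟩ := exa_all N D m hN hD hm
  obtain ⟨d5, hd5⟩ := upf_all N D (m + 1) hN hD (by omega)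
  refine ⟨max (max (max d1 d2) (max d3 d4)) (max d5 (m + 1)), fun d hd => ?_⟩
  simp only [max_le_iff] at hd
  obtain ⟨⟨⟨hd1', hd2'⟩, hd3', hd4'⟩, hd5', hdm⟩ := hd
  have hQ : (m + 1) * N ≤ QQ N d := by
    have hM : d + 1 ≤ Fintype.card (E (N + 1) d) := by
      rw [card_E]
      obtain ⟨N', rfl⟩ : ∃ N', N = N' + 1 := ⟨N - 1, by omega⟩
      exact Pool.Agent.Q38.MPT.choose_ge N' d
    calc (m + 1) * N ≤ (d + 1) * (N + 1) := Nat.mul_le_mul (by omega) (by omega)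
      _ ≤ Fintype.card (E (N + 1) d) * (N + 1) := Nat.mul_le_mul_right _ hM
      _ = QQ N d := mul_comm _ _
  refine ⟨hQ, ?_⟩
  obtain ⟨θ1, hθ1, hlim⟩ := hd1 d hd1'
  obtain ⟨C2, hC2, hlev⟩ := hd2 d hd2'
  obtain ⟨C3, hC3, htail⟩ := hd3 d hd3'
  obtain ⟨θ4, hθ4, hexa⟩ := hd4 d hd4'
  obtain ⟨C5, θ5, hC5, hθ5, hbad⟩ := hd5 d hd5'
  have hd0 : 1 ≤ d := by omega
  have hdR : (1 : ℝ) ≤ d := by exact_mod_cast hd0
  set θ₀ : ℝ := min θ1 (min θ4 (θ5 / (d : ℝ) ^ m)) with hθ₀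
  have hθ0 : 0 < θ₀ := lt_min hθ1 (lt_min hθ4 (by positivity))
  have hle1 : θ₀ ≤ θ1 := min_le_left _ _
  have hle4 : θ₀ ≤ θ4 := (min_le_right _ _).trans (min_le_left _ _)
  have hle5 : θ₀ ≤ θ5 / (d : ℝ) ^ m := (min_le_right _ _).trans (min_le_right _ _)
  obtain ⟨W, hWs, hW⟩ := exists_W (N := N) (D := D) (m := m) (d := d) (θ := θ₀)
    (fun σ p hp hR => hlim θ₀ hθ0 hle1 σ p hp hR)
  obtain ⟨hW0, hWsum, hlaw⟩ := lawG hN hm hW C2 hC2 hlev C3 hC3 htail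
  refine ⟨θ₀, W, hθ0, hW0, hWsum, hWs, fun σ => ?_, fun θ hθ => ⟨fun 𝒢 => ?_, ?_⟩⟩
  · obtain ⟨C4, hC4, hex⟩ := hexa σ
    have hge : ∀ᶠ H : ℕ in atTop, 1 / C4 ≤ cnt N d H (HasP N D m θ₀ H (Gph (σ, ppt N m))) /
        (H : ℝ) ^ (QQ N d - m * N) := by
      filter_upwards [eventually_ge_atTop (max 1 ⌈C4⌉₊)] with H hH
      have h5 : 1 ≤ H := (le_max_left _ _).trans hH
      have h6 : C4 ≤ H := (Nat.le_ceil C4).trans (by exact_mod_cast (le_max_right _ _).trans hH)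
      have h7 : (0 : ℝ) < (H : ℝ) ^ (QQ N d - m * N) := by
        have : (0 : ℝ) < H := by exact_mod_cast h5
        positivity
      have h8 := (hex H h6).trans (mul_le_mul_of_nonneg_left
        (cnt_mono (Ψ := HasP N D m θ₀ H (Gph (σ, ppt N m)))
          fun F _ hF hP => exa_has hN hD hle4 hF hP.1 hP.2) hC4.le)
      rw [div_le_div_iff₀ hC4 h7, one_mul]
      linarith
    exact lt_of_lt_of_le (by positivity) (ge_of_tendsto (hW _) hge)
  · refine lim_transfer hQ hN hC5 hbad (fun H hH => ?_) (fun H hH => ?_) (hlaw 𝒢)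
    · refine cnt_or fun F _ hF h => ?_
      obtain ⟨hc, hG⟩ := h
      rcases has_or_bad hθ hθ5 hd0 hle5 hH hF hc.ge with h3 | h3
      · obtain ⟨G', hG'⟩ := h3
        rw [← hasP_port hF (has_of_has hθ hF hG')] at hG
        exact Or.inl ⟨G', hG, hG'⟩
      · exact Or.inr h3
    · refine (cnt_mono fun F _ hF h => ?_).trans (le_add_of_nonneg_right (cnt_nonneg _))
      obtain ⟨G, hG, hGF⟩ := h
      have h3 := has_of_has hθ hF hGF
      refine ⟨card_of_has h3, ?_⟩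
      rw [← hasP_port hF h3]
      exact hG
  · have huniv := hlaw Set.univ
    rw [Set.indicator_univ] at huniv
    refine lim_transfer hQ hN hC5 hbad (fun H hH => ?_) (fun H hH => ?_) huniv
    · refine cnt_or fun F _ hF h => ?_
      rcases has_or_bad hθ hθ5 hd0 hle5 hH hF h with h3 | h3
      · obtain ⟨G', hG'⟩ := h3
        exact Or.inl ⟨G', Set.mem_univ _, hG'⟩
      · exact Or.inr h3
    · refine (cnt_mono fun F _ hF h => ?_).trans (le_add_of_nonneg_right (cnt_nonneg _))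
      obtain ⟨G, -, hGF⟩ := h
      exact (card_of_has (has_of_has hθ hF hGF)).ge

end Pool.Agent.Q256.MP
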