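import Pool.Agent.Q256.MP.Stm3

/-!
# Project MP: the limit law of the portrait and its support
-/

set_option autoImplicit false

open Height NumberField Filter Topology
open scoped LinearAlgebra.Projectivization

noncomputable section

namespace Pool.Agent.Q256.MP

open Pool.Agent.W276.GE Pool.Agent.Q96.MP

/-- **The limit law of the portrait, with its support.** -/
theorem law2 (hpos : S_posi) (honl : S_onl) (N D m : ℕ) (hN : 1 ≤ N) (hD : 1 ≤ D) (hm : 1 ≤ m) :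
    ∃ d₀ : ℕ, ∀ d, d₀ ≤ d →
    (m + 1) * N ≤ QQ N d ∧ ∃ (θ₀ : ℝ) (W : Set (Pt N × Pt N) → ℝ), 0 < θ₀ ∧ (∀ G, 0 ≤ W G) ∧
      Summable W ∧
      (∀ G, 0 < W G ↔ (∃ x : (Fin m → Fin m) × (Fin m → Pt N), Function.Injective x.2 ∧
        (∀ i, x.2 i ∈ Rp N D (fun _ _ _ _ => True)) ∧ Gph x = G) ∧ Stb G) ∧
      ∀ θ : ℝ, θ ≤ θ₀ →
        (∀ 𝒢 : Set (Set (Pt N × Pt N)),
          Tendsto (fun H : ℕ => cnt N d H (fun F => (Sm N D θ H F).encard = m ∧
            port N D θ H F ∈ 𝒢) / (H : ℝ) ^ (QQ N d - m * N)) atTop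
            (𝓝 (∑' G, 𝒢.indicator W G))) ∧
        Tendsto (fun H : ℕ => cnt N d H (fun F => (m : ℕ∞) ≤ (Sm N D θ H F).encard) /
            (H : ℝ) ^ (QQ N d - m * N)) atTop (𝓝 (∑' G, W G)) := by
  classical
  obtain ⟨d1, hd1⟩ := plim_all N D m hN hD hm
  obtain ⟨d2, hd2⟩ := lev_all N D m hN hD hm
  obtain ⟨d3, hd3⟩ := tail_all N D 1 (m * N) hN hD le_rfl
  obtain ⟨d5, hd5⟩ := upf_all N D (m + 1) hN hD (by omega)
  refine ⟨max (max d1 (max d2 d3)) (max d5 (m + 1)), fun d hd => ?_⟩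
  simp only [max_le_iff] at hd
  obtain ⟨⟨hd1', hd2', hd3'⟩, hd5', hdm⟩ := hd
  have hQ : (m + 1) * N ≤ QQ N d := by
    have hM : d + 1 ≤ Fintype.card (E (N + 1) d) := by
      rw [card_E]
      obtain ⟨N', rfl⟩ : ∃ N', N = N' + 1 := ⟨N - 1, by omega⟩
      exact Pool.Agent.Q38.MPT.choose_ge N' d
    calc (m + 1) * N ≤ (d + 1) * (N + 1) := Nat.mul_le_mul (by omega) (by omega)
      _ ≤ Fintype.card (E (N + 1) d) * (N + 1) := Nat.mul_le_mul_right _ hM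
      _ = QQ N d := mul_comm _ _
  refine ⟨hQ, ?_⟩
  obtain ⟨θ1, hθ1, hlim⟩ := hd1 d hd1'
  obtain ⟨C2, hC2, hlev⟩ := hd2 d hd2'
  obtain ⟨C3, hC3, htail⟩ := hd3 d hd3'
  obtain ⟨C5, θ5, hC5, hθ5, hbad⟩ := hd5 d hd5'
  have hd0 : 1 ≤ d := by omega
  have hdR : (1 : ℝ) ≤ d := by exact_mod_cast hd0
  obtain ⟨θ₀, hθ₀⟩ : ∃ θ₀ : ℝ, θ₀ = min θ1 (θ5 / (d : ℝ) ^ m) := ⟨_, rfl⟩
  have hθ0 : 0 < θ₀ := by
    rw [hθ₀]
    exact lt_min hθ1 (by positivity)
  have hle1 : θ₀ ≤ θ1 := hθ₀ ▸ min_le_left _ _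
  have hle5 : θ₀ ≤ θ5 / (d : ℝ) ^ m := hθ₀ ▸ min_le_right _ _
  have hle5' : θ₀ ≤ θ5 := hle5.trans (div_le_self hθ5.le (one_le_pow₀ hdR))
  obtain ⟨W, hWs, hW⟩ := exists_W (N := N) (D := D) (m := m) (d := d) (θ := θ₀)
    (fun σ p hp hR => hlim θ₀ hθ0 hle1 σ p hp hR)
  obtain ⟨hW0, hWsum, hlaw⟩ := lawG hN hm hW C2 hC2 hlev C3 hC3 htail
  have hzero : ∀ G, (∀ (H : ℕ) (F : Sy N d), NoZero F → ¬ HasP N D m θ₀ H G F) → W G = 0 := by
    intro G hG
    have h1 : (fun H : ℕ => cnt N d H (HasP N D m θ₀ H G) / (H : ℝ) ^ (QQ N d - m * N)) =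
        fun _ => 0 := by
      funext H
      have h2 : cnt N d H (HasP N D m θ₀ H G) = 0 := by
        unfold cnt
        rw [Nat.cast_eq_zero, Set.ncard_eq_zero (cnt_set_finite _),
          Set.eq_empty_iff_forall_notMem]
        intro F hF
        exact hG H F hF.2.1 hF.2.2
      rw [h2, zero_div]
    have h3 := hW G
    rw [h1] at h3
    exact tendsto_nhds_unique h3 tendsto_const_nhds |>.symm ▸ rfl
  refine ⟨θ₀, W, hθ0, hW0, hWsum, fun G => ⟨fun hG => ⟨?_, ?_⟩, ?_⟩, fun θ hθ => ⟨fun 𝒢 => ?_, ?_⟩⟩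
  · by_contra hcon
    refine hG.ne' (hzero G fun H F _ hP => hcon ?_)
    obtain ⟨x, hx, hxG, h1, -⟩ := hP
    exact ⟨x, hx, fun i => small_rp (F := F) (θ := θ₀) (H := H) (by rw [h1]; exact ⟨i, rfl⟩), hxG⟩
  · by_contra hcon
    refine hG.ne' (hzero G fun H F hF hP => hcon ?_)
    rw [hasP_port hF hP]
    exact honl N D d θ₀ H F hF
  · rintro ⟨⟨x, hx, hR, rfl⟩, hS⟩
    obtain ⟨c, hc, hev⟩ := hpos N d m hN hm (by omega) x.1 x.2 hx hS
    have hb : Tendsto (fun H : ℕ => C5 / (H : ℝ)) atTop (𝓝 0) :=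
      tendsto_const_div_atTop_nhds_zero_nat C5
    have hlow : ∀ᶠ H : ℕ in atTop, c - C5 / H ≤
        cnt N d H (HasP N D m θ₀ H (Gph x)) / (H : ℝ) ^ (QQ N d - m * N) := by
      filter_upwards [hev, eventually_ge_atTop 1] with H h1 hH
      have hHr : (1 : ℝ) ≤ H := by exact_mod_cast hH
      have hH0 : (0 : ℝ) < (H : ℝ) ^ (QQ N d - m * N) := by positivity
      have h2 : cnt N d H (fun F => ∀ i, Im F (x.2 i) (x.2 (x.1 i))) ≤
          cnt N d H (HasP N D m θ₀ H (Gph x)) +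
          cnt N d H (fun F => Many (N + 1) D (m + 1)
            (fun K _ _ P => Pp F K P ∨ ¬ Gr θ5 H F K P)) := by
        refine cnt_or fun F _ hF h => ?_
        by_cases hs : Sm N D θ₀ H F = Set.range x.2
        · exact Or.inl ⟨x, hx, rfl, hs, h⟩
        · exact Or.inr (Pool.Agent.Q182.MPPLIM.many_of_ne hle5' F hF x.1 x.2 hx h hR hs)
      have h3 := hbad H hH
      have hpow : (H : ℝ) ^ (QQ N d - (m + 1) * N) ≤ (H : ℝ) ^ (QQ N d - m * N) / H := by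
        rw [le_div_iff₀ (by positivity), ← pow_succ]
        refine pow_le_pow_right₀ hHr ?_
        have : (m + 1) * N = m * N + N := by ring
        omega
      have h4 : C5 * (H : ℝ) ^ (QQ N d - (m + 1) * N) ≤ C5 / H * (H : ℝ) ^ (QQ N d - m * N) := by
        refine (mul_le_mul_of_nonneg_left hpow hC5.le).trans_eq ?_
        ring
      rw [le_div_iff₀ hH0, sub_mul]
      linarith
    have hlim2 : Tendsto (fun H : ℕ => c - C5 / (H : ℝ)) atTop (𝓝 c) := by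
      have := (tendsto_const_nhds (x := c)).sub hb
      rwa [sub_zero] at this
    exact hc.trans_le (le_of_tendsto_of_tendsto hlim2 (hW _) hlow)
  · refine lim_transfer hQ hN hC5 hbad (fun H hH => ?_) (fun H hH => ?_) (hlaw 𝒢)
    · refine cnt_or fun F _ hF h => ?_
      obtain ⟨hc, hG⟩ := h
      rcases has_or_bad hθ hθ5 hd0 hle5 hH hF hc.ge with h3 | h3
      · obtain ⟨G', hG'⟩ := h3
        rw [← hasP_port hF (has_of_has hθ hF hG')] at hG
        exact Or.inl ⟨G', hG, hG'⟩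
      · exact Or.inr h3
    · refine (cnt_mono fun F _ hF h => ?_).trans (le_add_of_nonneg_right (cnt_nonneg _))
      obtain ⟨G, hG, hGF⟩ := h
      have h3 := has_of_has hθ hF hGF
      refine ⟨card_of_has h3, ?_⟩
      rw [← hasP_port hF h3]
      exact hG
  · have huniv := hlaw Set.univ
    rw [Set.indicator_univ] at huniv
    refine lim_transfer hQ hN hC5 hbad (fun H hH => ?_) (fun H hH => ?_) huniv
    · refine cnt_or fun F _ hF h => ?_
      rcases has_or_bad hθ hθ5 hd0 hle5 hH hF h with h3 | h3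
      · obtain ⟨G', hG'⟩ := h3
        exact Or.inl ⟨G', Set.mem_univ _, hG'⟩
      · exact Or.inr h3
    · refine (cnt_mono fun F _ hF h => ?_).trans (le_add_of_nonneg_right (cnt_nonneg _))
      obtain ⟨G, -, hGF⟩ := h
      exact (card_of_has (has_of_has hθ hF hGF)).ge

open Pool.Agent.Q190.MP (ppt ppt_inj pt_ne) in
theorem conj_ppt {N m : ℕ} (τ : ℂ ≃+* ℂ) (i : Fin m) : conjP τ (ppt N m i) = ppt N m i := by
  obtain ⟨a, ha⟩ := Projectivization.exists_smul_eq_mk_rep ℂ _ (pt_ne N i)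
  unfold conjP
  rw [ppt, Projectivization.mk_eq_mk_iff']
  refine ⟨τ a, ?_⟩
  rw [← ha]
  funext j
  simp [Units.smul_def]

open Pool.Agent.Q190.MP (ppt ppt_inj pt_ne) in
theorem ppt_portrait {N D m : ℕ} (hN : 1 ≤ N) (hD : 1 ≤ D) (σ : Fin m → Fin m) :
    (∃ x : (Fin m → Fin m) × (Fin m → Pt N), Function.Injective x.2 ∧
        (∀ i, x.2 i ∈ Rp N D (fun _ _ _ _ => True)) ∧ Gph x = Gph (σ, ppt N m)) ∧
      Stb (Gph (σ, ppt N m)) := by
  refine ⟨⟨(σ, ppt N m), ppt_inj hN, fun i => ?_, rfl⟩, ?_⟩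
  · have hcast : (fun j => (pt N i j : ℂ)) = fun j => (algebraMap ℚ ℂ) ((pt N i j : ℤ) : ℚ) := by
      funext j
      simp
    have hne : (fun j => (algebraMap ℚ ℂ) ((pt N i j : ℤ) : ℚ)) ≠ 0 := by
      rw [← hcast]
      exact pt_ne N i
    have hP : (fun j => ((pt N i j : ℤ) : ℚ)) ≠ 0 := by
      intro h0
      apply hne
      funext j
      rw [congrFun h0 j]
      simp
    refine ⟨_, pt_ne N i, rfl, ℚ, inferInstance, inferInstance, algebraMap ℚ ℂ, _, ?_, hP,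
      trivial, hcast⟩
    rw [Module.finrank_self]
    exact hD
  · rintro τ _ ⟨i, rfl⟩
    refine ⟨i, ?_⟩
    change (ppt N m i, ppt N m (σ i)) = (conjP τ (ppt N m i), conjP τ (ppt N m (σ i)))
    rw [conj_ppt, conj_ppt]

end Pool.Agent.Q256.MP
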