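import Pool.Agent.W276.GE.Close

/-!
# Project MP: the law of the number of preperiodic points of endomorphisms of `ℙ^N`

Notation of project GE (`Pool.Agent.W276.GE`, files Stm, Basic, Count, Bound, Union): a form of degree
`t` in `n` variables is a family `g : E n t → ℤ` of coefficients, `ev g x` its value, `box n t T` the
set of forms with coefficients at most `T`, `Fb n d H` the systems of `n` forms, `NoZero F`, `Spans`,
`nv`, `nz`.  Everything of project GE is proved (`S_pts`: `Pool.Agent.W32.GE.pts`, `S_root`: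
`W347.GE.root`, `S_prod`: `W135.GE.prod`, `S_pack`: `W613.GEPack.pack W347.GE.root W135.GE.prod`,
`S_cov`: `W216.GE.cov`, `S_span`: `W405.GE.span_of_mac (W216.GE.mac W85.GE.perm W333.GELin.lin
W366.GE.hyp)`, `S_ideal`: `W108.GE.ideal`).

With `M` the number of the exponent vectors of degree `d` in `N + 1` variables and `Q = (N + 1) M`:
the number of the endomorphisms in `Fb (N + 1) d H` with at least `m` preperiodic points of degree at
most `D` is of the exact order `H ^ (Q - m N)`, `d ≥ d₀ (N, D, m)`.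
-/

set_option autoImplicit false

open Height NumberField

noncomputable section

namespace Pool.Agent.Q256.MP

open Pool.Agent.W276.GE

/-- The systems of `N + 1` forms of degree `d` in `N + 1` variables. -/
abbrev Sy (N d : ℕ) : Type := Fin (N + 1) → E (N + 1) d → ℤ

/-- the number of coefficients of a form -/
abbrev MM (N d : ℕ) : ℕ := Fintype.card (E (N + 1) d)

/-- the number of coefficients of a system -/
abbrev QQ (N d : ℕ) : ℕ := (N + 1) * Fintype.card (E (N + 1) d)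

/-- the self-map of `K ^ n` given by the system `F` -/
def fm {n d : ℕ} (F : Fin n → E n d → ℤ) (K : Type) [Field K] (P : Fin n → K) : Fin n → K :=
  fun i => ev (F i) P

/-- the vectors `z i` are nonzero and pairwise not proportional -/
def Sep {m n : ℕ} (z : Fin m → Fin n → ℂ) : Prop :=
  (∀ i, z i ≠ 0) ∧ ∀ i j, i ≠ j → ∀ c : ℂ, z i ≠ c • z j

/-- `z` is the image in `ℂ ^ n` of a nonzero vector with the property `Φ` over a number field of
degree at most `D` -/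
def Rep (n D : ℕ) (Φ : ∀ (K : Type) [Field K] [NumberField K], (Fin n → K) → Prop)
    (z : Fin n → ℂ) : Prop :=
  ∃ (K : Type) (_ : Field K) (_ : NumberField K) (φ : K →+* ℂ) (P : Fin n → K),
    Module.finrank ℚ K ≤ D ∧ P ≠ 0 ∧ Φ K P ∧ z = fun i => φ (P i)

/-- there are at least `m` points of degree at most `D` with the property `Φ` -/
def Many (n D m : ℕ) (Φ : ∀ (K : Type) [Field K] [NumberField K], (Fin n → K) → Prop) : Prop :=
  ∃ z : Fin m → Fin n → ℂ, Sep z ∧ ∀ i, Rep n D Φ (z i)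

/-- the point with coordinates `P` is preperiodic -/
def Pp {n d : ℕ} (F : Fin n → E n d → ℤ) (K : Type) [Field K] (P : Fin n → K) : Prop :=
  ∃ k l : ℕ, k < l ∧ ∃ c : K, c ≠ 0 ∧ (fm F K)^[l] P = c • (fm F K)^[k] P

/-- the absolute logarithmic height of `F^k (P)` is at least `θ d ^ k log H` for all large `k` -/
def Gr {n d : ℕ} (θ : ℝ) (H : ℕ) (F : Fin n → E n d → ℤ) (K : Type) [Field K] [NumberField K]
    (P : Fin n → K) : Prop :=
  ∃ k₀ : ℕ, ∀ k, k₀ ≤ k →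
    θ * (d : ℝ) ^ k * Real.log H * Module.finrank ℚ K ≤ Real.log (mulHeight ((fm F K)^[k] P))

/-- over some number field of degree at most `D` there is a point of height at least `2 ^ κ` whose
image has height at most the `s`-th power of its height -/
def Tl {N d : ℕ} (D s κ : ℕ) (F : Sy N d) : Prop :=
  ∃ (K : Type) (_ : Field K) (_ : NumberField K), Module.finrank ℚ K ≤ D ∧
    ∃ P : Fin (N + 1) → K, P ≠ 0 ∧ mulHeight (fm F K P) ≤ mulHeight P ^ s ∧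
      (2 : ℝ) ^ κ ≤ mulHeight P

/-- the number of forms of degree `d` with coefficients at most `T` which vanish at all `z i` -/
def nzj {m n : ℕ} (z : Fin m → Fin n → ℂ) (d T : ℕ) : ℕ :=
  {g : E n d → ℤ | g ∈ box n d T ∧ ∀ i, ev g (z i) = 0}.ncard

/-- `F` maps the points `z i` to the points `w i` (or to zero) -/
def Cf {m N d : ℕ} (z w : Fin m → Fin (N + 1) → ℂ) (F : Sy N d) : Prop :=
  ∀ i, ∃ c : ℂ, ∀ j, ev (F j) (z i) = c * w i j

/-- the number of the endomorphisms with coefficients at most `H` and the property `Φ` -/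
def cnt (N d H : ℕ) (Φ : Sy N d → Prop) : ℝ :=
  ({F : Sy N d | F ∈ Fb (N + 1) d H ∧ NoZero F ∧ Φ F}.ncard : ℝ)

/-! ### Large heights -/

/-- **JOB LOWG** (0.6 h), `theorem lowg : S_lowg`.
This is `Pool.Agent.W462.GE.arch` (file `Pool/Agent/W462/GE/Arch.lean`, theorems `core` and `arch`)
without the hypothesis `mulHeight (fm F K P) ≤ mulHeight P`. Copy that file's proofs (you may import
it and use its lemmas). The only place where the hypothesis is used is `hstar`: with `X = mulHeight P`,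
`Y = mulHeight (fm F K P)`, `∏ A_v = X * Na`, `∏ B_v = Y * Nb`, `τ ^ e * (∏ A) ^ d ≤ ∏ B` it becomes
`τ ^ e * X ^ d * Na ^ d ≤ Y * Nb`, and with `Nb ≤ Na ^ d * #S ^ e` (from `S_ideal`, i.e.
`Pool.Agent.W108.GE.ideal`) one gets `τ ^ e * X ^ d ≤ Y * #S ^ e`; the count
`(H / (3 m τ)) * #S ≤ nv` finishes as there. -/
def S_lowg : Prop :=
  ∀ (n d t H : ℕ), 1 ≤ n → 1 ≤ d → d ≤ t → 1 ≤ H → ∀ F : Fin n → E n d → ℤ,
    (∀ i, F i ∈ box n d H) → Spans F t →
    ∀ (K : Type) [Field K] [NumberField K] (P : Fin n → K), P ≠ 0 →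
      ((H : ℝ) / (3 * (n * Fintype.card (E n (t - d))))) ^ (Module.finrank ℚ K) *
          mulHeight P ^ d ≤
        (nv t (H + n * Fintype.card (E n (t - d)) * H) P : ℝ) ^ (Module.finrank ℚ K) *
          mulHeight (fm F K P)

/-- **JOB NZS** (0.7 h), `theorem nzs (h : S_lowg) : S_nzs`.
Copy of `nz_bound` (`Pool/Agent/W276/GE/Bound.lean`) with `mulHeight (fm F K P) ≤ mulHeight P ^ s`
instead of `≤ mulHeight P`. Case `mulHeight P ≤ H ^ (2 D N)`: literally the same (`S_pack`, which does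
not mention `F`). Case `>`: `S_lowg` gives `(H / (3 m)) ^ e * X ^ d ≤ nv ^ e * X ^ s`, hence
`(H / (3 m)) ^ e * X ^ (d - s) ≤ nv ^ e`, and `real_core` is used with `d - s + 1` in place of `d`
(it needs `(B + 1) * (k * e) ≤ d - s`, so add `s` to the bound for `d₀`). -/
def S_nzs : Prop :=
  ∀ N D B s : ℕ, 1 ≤ N → 1 ≤ D → ∃ d₀ : ℕ, ∀ d, d₀ ≤ d → ∃ C : ℝ, 0 < C ∧ ∀ H : ℕ, 1 ≤ H →
    ∀ F ∈ Fb (N + 1) d H, NoZero F → ∀ (K : Type) [Field K] [NumberField K],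
    Module.finrank ℚ K ≤ D → ∀ P : Fin (N + 1) → K, P ≠ 0 →
    mulHeight (fm F K P) ≤ mulHeight P ^ s →
    (nz d (2 * H) P : ℝ) * mulHeight P ^ B ≤ C * (H : ℝ) ^ (MM N d - 1)

/-- **JOB TAIL** (1.0 h), `theorem tail (h : S_nzs) : S_tail`.
Copy of `badAt_count` and `bad_count` (`Pool/Agent/W276/GE/Union.lean`, `Main.lean`). Let `c`, `C₂` be
the constants of `S_pts` for `D`; take `B = 2 c s (N + 1) + a + 1` in `S_nzs`. If `Tl D s κ F`, choose
`λ ≥ κ` with `2 ^ λ ≤ mulHeight P ≤ 2 ^ (λ + 1)`; then `P` and its image have height at most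
`2 ^ (s (λ + 1))`, so after scaling both have coordinates in a set `A` of at most
`C₂ * 2 ^ (c s (λ + 1))` numbers; for every such pair of vectors `(p, q)` with
`nz d (2 H) p ≤ R := C₁ H ^ (M - 1) / 2 ^ (λ B)` at most `(3 H) ^ M * R ^ N` systems `F` map `p` to a
multiple of `q` (`fibre_le`). So level `λ` contributes at most
`C * H ^ (Q - N) * 2 ^ (2 c s (N + 1) λ - B N λ) ≤ C * H ^ (Q - N) * 2 ^ (- (a + 1) λ)`, and the sum
over `λ ≥ κ` (finitely many `λ` occur, as the set of `F` is finite) is at most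
`2 C * H ^ (Q - N) * 2 ^ (- a κ)`. -/
def S_tail : Prop :=
  ∀ N D s a : ℕ, 1 ≤ N → 1 ≤ D → 1 ≤ s → ∃ d₀ : ℕ, ∀ d, d₀ ≤ d → ∃ C : ℝ, 0 < C ∧
    ∀ H : ℕ, 1 ≤ H → ∀ κ : ℕ,
      cnt N d H (Tl D s κ) ≤ C * (H : ℝ) ^ (QQ N d - N) * (1 / 2) ^ (a * κ)

/-- **JOB GROW** (0.4 h), `theorem grow (h : S_lowg) : S_grow`.
Use `S_lowg` with `n = N + 1`, `t = (N + 1) (d - 1) + 1` (`Spans F t` by `S_span`, proved, see the
header). `nv t T P` is at most `(box n t T).card = (2 T + 1) ^ card (E n t)`, `T = H + m H`,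
`m = (N + 1) card (E (N + 1) (t - d)) ≥ 1`, and `(H / (3 m)) ^ e ≥ (1 / (3 m)) ^ e ≥ (1 / (3 m)) ^ D`.
So `mulHeight P ^ d ≤ (3 m) ^ D * ((2 (m + 1) + 1) H) ^ (card (E n t) * D) * mulHeight (fm F K P)`. -/
def S_grow : Prop :=
  ∀ N D d : ℕ, 1 ≤ d → ∃ (C : ℝ) (a : ℕ), 0 < C ∧ ∀ H : ℕ, 1 ≤ H → ∀ F ∈ Fb (N + 1) d H,
    NoZero F → ∀ (K : Type) [Field K] [NumberField K], Module.finrank ℚ K ≤ D →
    ∀ P : Fin (N + 1) → K, P ≠ 0 → mulHeight P ^ d ≤ C * (H : ℝ) ^ a * mulHeight (fm F K P)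

/-- **JOB ITER** (0.4 h), `theorem iter : S_iter`.
`L = log H ≥ log 2`, `x_n = log X_n`, `b = max (log C) 0 / log 2 + a`. Then `x_(n+1) ≥ 2 x_n`, so
`x_n ≥ 2 ^ n η L`, and `x_(n+1) ≥ d x_n - b L`. Choose `n₁` with `2 ^ n₁ * η ≥ 2 b`. For
`y_n = x_n - b L / (d - 1)` we have `y_(n+1) ≥ d y_n` and
`y_(n₁) ≥ x_(n₁) - b L ≥ 2 ^ n₁ (η / 2) L`, so `x_n ≥ y_n ≥ d ^ (n - n₁) 2 ^ n₁ (η / 2) L` for
`n ≥ n₁`: `θ = 2 ^ n₁ η / (2 d ^ n₁)`. -/
def S_iter : Prop :=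
  ∀ (d a : ℕ) (C η : ℝ), 2 ≤ d → 0 < C → 0 < η → ∃ θ : ℝ, 0 < θ ∧ ∃ n₁ : ℕ, ∀ H : ℕ, 2 ≤ H →
    ∀ X : ℕ → ℝ, (∀ n, 1 ≤ X n) → (∀ n, X n ^ 2 ≤ X (n + 1)) →
      (∀ n, X n ^ d ≤ C * (H : ℝ) ^ a * X (n + 1)) → (H : ℝ) ^ η ≤ X 0 →
      ∀ n, n₁ ≤ n → (H : ℝ) ^ (θ * (d : ℝ) ^ n) ≤ X n

/-- **JOB SMALL** (0.5 h), `theorem small (h1 : S_grow) (h2 : S_iter) : S_small`.
`C`, `a` from `S_grow`, `θ₁` from `S_iter`, `θ = θ₁ / (D d)`. Let `P' = P` or `P' = fm F K P` and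
suppose `2 ^ κ < mulHeight P'`. All iterates of `P'` are nonzero (`image_ne_zero` in
`Pool/Agent/W276/GE/Union.lean`; `K` has an embedding into `ℂ`). By `¬ Tl D 2 κ F` a point `R ≠ 0`
with `2 ^ κ ≤ mulHeight R` has `mulHeight R ^ 2 < mulHeight (fm F K R)`; by induction
`X_n = mulHeight (F^n (P'))` satisfies `2 ^ κ ≤ X_n`, `X_n ^ 2 ≤ X_(n+1)`, and
`X_n ^ d ≤ C H ^ a X_(n+1)` by `S_grow`. So `X_n ≥ H ^ (θ₁ d ^ n)` for `n ≥ n₁`, which is
`Gr θ H F K P` (use `finrank ≤ D`; for `P' = fm F K P` shift the index by one: this costs `d`). -/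
def S_small : Prop :=
  ∀ (N D d : ℕ) (η : ℝ), 1 ≤ D → 2 ≤ d → 0 < η → ∃ θ : ℝ, 0 < θ ∧ ∀ H : ℕ, 2 ≤ H →
    ∀ F ∈ Fb (N + 1) d H, NoZero F → ∀ κ : ℕ, (H : ℝ) ^ η ≤ 2 ^ κ → ¬ Tl D 2 κ F →
    ∀ (K : Type) [Field K] [NumberField K], Module.finrank ℚ K ≤ D →
    ∀ P : Fin (N + 1) → K, P ≠ 0 → ¬ Gr θ H F K P →
      mulHeight P ≤ 2 ^ κ ∧ mulHeight (fm F K P) ≤ 2 ^ κ

/-! ### Systems with given values at several points -/

/-- **JOB BOX** (0.5 h), `theorem box_dim : S_box`.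
There is a set `J` of at most `finrank V ≤ k` coordinates such that the projection `V → (J → ℂ)` is
injective (choose a basis of the dual of `V` among the coordinate functions, which span the dual; or:
among the sets `J` of coordinates with `V ∩ {x | x_j = 0 for j ∈ J} = 0` and `card J ≤ k`, obtained
by induction on `finrank V`: if `V ≠ 0` some coordinate function is not zero on `V`, and its kernel in
`V` has smaller dimension). So `g` is determined by `(g j)_{j ∈ J}`. -/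
def S_box : Prop :=
  ∀ (ι : Type) [Fintype ι] (V : Submodule ℂ (ι → ℂ)) (k T : ℕ), Module.finrank ℂ V ≤ k →
    {g : ι → ℤ | (∀ i, |g i| ≤ (T : ℤ)) ∧ (fun i => (g i : ℂ)) ∈ V}.ncard ≤ (2 * T + 1) ^ k

/-- **JOB INTP** (0.7 h), `theorem intp : S_intp`.
For `k ≠ i` there is a linear form which vanishes at `z k` and not at `z i` (as these are not
proportional), and there is a linear form which does not vanish at `z i ≠ 0`. The product of the
`m - 1` forms for `k ≠ i` and of `d - (m - 1) ≥ 0` copies of the last one, divided by its value at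
`z i`, is homogeneous of degree `d`; take its coefficients (products: `MvPolynomial (Fin n) ℂ`,
homogeneous polynomials, compare `fs`, `exists_fs` in `Pool/Agent/W276/GE/Conv.lean`; if `m = 0`
there is nothing to show). -/
def S_intp : Prop :=
  ∀ (n d m : ℕ), m ≤ d + 1 → ∀ z : Fin m → Fin n → ℂ, Sep z → ∀ i, ∃ g : E n d → ℂ,
    ∀ k, ∑ α, g α * ∏ j, z k j ^ α.1 j = if k = i then 1 else 0

/-- **JOB VDIM** (0.4 h), `theorem vdim (h1 : S_box) (h2 : S_intp) : S_vdim`.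
The linear map `(E n d → ℂ) → (Fin m → ℂ)`, `g ↦ (∑ g α z_i ^ α)_i`, is surjective by `S_intp`, so its
kernel `V` has dimension `card (E n d) - m`. Apply `S_box`. -/
def S_vdim : Prop :=
  ∀ (n d m T : ℕ), m ≤ d + 1 → ∀ z : Fin m → Fin n → ℂ, Sep z →
    nzj z d T ≤ (2 * T + 1) ^ (Fintype.card (E n d) - m)

/-- **JOB AVOID** (0.3 h), `theorem avoid : S_avoid`.
Take `u = (1, t, t ^ 2, …, t ^ (n - 1))`: for every `i` the nonzero polynomial `∑ j, w i j t ^ j` of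
degree less than `n` has at most `n - 1` roots, so some `t` in `{0, …, m n}` works for all `i`;
`R = (m n + 1) ^ n`. (If `m = 0` take `u = 0`.) -/
def S_avoid : Prop :=
  ∀ n m : ℕ, ∃ R : ℕ, ∀ w : Fin m → Fin n → ℂ, (∀ i, w i ≠ 0) →
    ∃ u : Fin n → ℤ, (∀ j, |u j| ≤ (R : ℤ)) ∧ ∀ i, ∑ j, (u j : ℂ) * w i j ≠ 0

/-- **JOB FIB** (0.7 h), `theorem fib (h : S_avoid) : S_fib`.
`u` from `S_avoid` for the vectors `w i`; `m ≥ 1`, so `u j₀ ≠ 0` for some `j₀`. For `F` in the set put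
`G = ∑ j, u j • F j`, a form with coefficients at most `(N + 1) R H`. `F` is determined by `G` and the
`F j`, `j ≠ j₀`. Given `G`, the number `c` with `ev (F j) (z i) = c * w i j` for all `j` is
`c_i = ev G (z i) / ∑ j, u j * w i j`, so for `j ≠ j₀` the form `F j ∈ box (N + 1) d H` has given values
at all `z i`; the difference of two such forms is in `box (N + 1) d (2 H)` and vanishes at all `z i`, so
there are at most `nzj z d (2 H)` of them. In total at most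
`(2 (N + 1) R H + 1) ^ M * nzj z d (2 H) ^ N`. Compare `fibre_le` in `Pool/Agent/W276/GE/Count.lean`
(the case `m = 1`). -/
def S_fib : Prop :=
  ∀ N d m : ℕ, 1 ≤ m → ∃ C : ℝ, 0 < C ∧ ∀ H : ℕ, 1 ≤ H → ∀ z w : Fin m → Fin (N + 1) → ℂ,
    (∀ i, w i ≠ 0) →
    ({F : Sy N d | F ∈ Fb (N + 1) d H ∧ Cf z w F}.ncard : ℝ) ≤
      C * (H : ℝ) ^ (MM N d) * (nzj z d (2 * H) : ℝ) ^ N

/-- **JOB TUP** (0.4 h), `theorem tup (h : S_fib) : S_tup`.
Union bound: there are at most `A.card ^ (2 m (N + 1))` pairs `(z, w)` with all coordinates in `A`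
(`Fintype.piFinset`), and `S_fib` for each of those with `w i ≠ 0` for all `i` and
`nzj z d (2 H) ≤ R`. Compare `badAt_count` in `Pool/Agent/W276/GE/Union.lean`. -/
def S_tup : Prop :=
  ∀ N d m : ℕ, 1 ≤ m → ∃ C : ℝ, 0 < C ∧ ∀ H : ℕ, 1 ≤ H → ∀ (A : Finset ℂ) (R : ℝ), 0 ≤ R →
    ({F : Sy N d | F ∈ Fb (N + 1) d H ∧ ∃ z w : Fin m → Fin (N + 1) → ℂ, (∀ i j, z i j ∈ A) ∧
      (∀ i j, w i j ∈ A) ∧ (∀ i, w i ≠ 0) ∧ (nzj z d (2 * H) : ℝ) ≤ R ∧ Cf z w F}.ncard : ℝ) ≤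
      C * (H : ℝ) ^ (MM N d) * R ^ N * (A.card : ℝ) ^ (2 * m * (N + 1))

/-- **JOB NORM** (0.4 h), `theorem norm_pts : S_norm`.
For every `i` scale `P_i` and its image by `exists_norm` (`Pool/Agent/W276/GE/Union.lean`), exactly as
in the proof of `badAt_count` there: `b i = φ a` with `a P_i` having coordinates in `A`, and
`w i = φ (b' • fm F K P_i)`, `b' ≠ 0`, with coordinates in `A` (nonzero by `image_ne_zero`). Then
`ev (F j) (b i * z i) = φ (a ^ d) * φ (ev (F j) P_i) = φ (a ^ d / b') * w i j` (`ev_smul`,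
`ev_map`). -/
def S_norm : Prop :=
  ∀ (N D d m : ℕ) (X : ℝ) (A : Finset ℂ),
    (∀ (K : Type) [Field K] [NumberField K], Module.finrank ℚ K ≤ D →
      ∀ x : K, mulHeight₁ x ≤ X → ∀ φ : K →+* ℂ, φ x ∈ A) →
    ∀ F : Sy N d, NoZero F → ∀ z : Fin m → Fin (N + 1) → ℂ,
    (∀ i, Rep (N + 1) D (fun K _ _ P => mulHeight P ≤ X ∧ mulHeight (fm F K P) ≤ X) (z i)) →
    ∃ (b : Fin m → ℂ) (w : Fin m → Fin (N + 1) → ℂ), (∀ i, b i ≠ 0) ∧
      (∀ i j, b i * z i j ∈ A) ∧ (∀ i j, w i j ∈ A) ∧ (∀ i, w i ≠ 0) ∧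
      Cf (fun i j => b i * z i j) w F

/-- **JOB SMC** (0.5 h), `theorem smc (h1 : S_vdim) (h2 : S_tup) (h3 : S_norm) : S_smc`.
`c₀`, `C₂` from `S_pts` for `D` and `A` its set for `X`. By `S_norm` every `F` in the set is in the
set of `S_tup` with `R = (4 H + 1) ^ (M - m)`: `nzj` does not change if the vectors are multiplied by
nonzero numbers (`ev_smul`), so `S_vdim` applies (`Sep` is also preserved). The bound is
`C H ^ M (4 H + 1) ^ ((M - m) N) (C₂ X ^ c₀) ^ (2 m (N + 1))`, and `M + (M - m) N = Q - m N`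
as `m ≤ d + 1 ≤ M` (`card_E` in `Pool/Agent/W276/GE/Conv.lean`). So `c = 2 m (N + 1) c₀`. -/
def S_smc : Prop :=
  ∀ N D m : ℕ, 1 ≤ N → 1 ≤ D → 1 ≤ m → ∃ c : ℕ, ∀ d, m ≤ d + 1 → ∃ C : ℝ, 0 < C ∧
    ∀ (H : ℕ) (X : ℝ), 1 ≤ H → 1 ≤ X →
      cnt N d H (fun F => Many (N + 1) D m
        (fun K _ _ P => mulHeight P ≤ X ∧ mulHeight (fm F K P) ≤ X)) ≤
        C * X ^ c * (H : ℝ) ^ (QQ N d - m * N)

/-- **JOB UPE** (0.7 h), `theorem upe (h1 : S_tail) (h2 : S_small) (h3 : S_smc) : S_upe`.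
Let `c` be the constant of `S_smc` for `m + 1`, `η = 1 / (c + 1)`, `a = m N (c + 1)`, `d₀` the maximum of
that of `S_tail` for `s = 2`, `a` and of `m + 2` (so `d ≥ 2`), `θ` from `S_small` for `η`. For `H = 1`
the count is at most `(Fb (N + 1) d 1).card`. Let `H ≥ 2` and let `κ` be the least natural number with
`H ^ η ≤ 2 ^ κ`, so `2 ^ κ ≤ 2 H ^ η`. The `F` with `Tl D 2 κ F` are at most
`C H ^ (Q - N) 2 ^ (- a κ) ≤ C H ^ (Q - N) H ^ (- a η) = C H ^ (Q - N) H ^ (- m N) ≤ C H ^ (Q - m N)`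
(`Q ≥ (m + 1) N`, and the exponents are natural numbers). For the other `F` in the set the points are
of height at most `X = 2 ^ κ`, as are their images, by `S_small`; by `S_smc` there are at most
`C X ^ c H ^ (Q - (m + 1) N) ≤ C 2 ^ c H ^ (c η) H ^ (Q - (m + 1) N) ≤ C' H ^ (Q - m N)`, since
`c η ≤ 1 ≤ N`. -/
def S_upe : Prop :=
  ∀ N D m : ℕ, 1 ≤ N → 1 ≤ D → 1 ≤ m → ∃ d₀ : ℕ, ∀ d, d₀ ≤ d → ∃ C θ : ℝ, 0 < C ∧ 0 < θ ∧
    ∀ H : ℕ, 1 ≤ H →
      cnt N d H (fun F => Many (N + 1) D (m + 1) (fun K _ _ P => ¬ Gr θ H F K P)) ≤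
        C * (H : ℝ) ^ (QQ N d - m * N)

/-! ### The exact exponent for preperiodic points -/

/-- **JOB GELF** (0.6 h), `theorem gelf : S_gelf`.
Mahler measure (`Mathlib/Analysis/Polynomial/MahlerMeasure.lean`): `|f_i| ≤ choose * M(f) ≤ 2 ^ d M(f)`,
`|q_j| ≤ 2 ^ d M(q)`, `M(f) M(q) = M(f q) ≤` sum of the absolute values of the coefficients of `f q`
`≤ (2 d + 1) T`. So `C = 4 ^ d (2 d + 1)`. -/
def S_gelf : Prop :=
  ∀ d : ℕ, ∃ C : ℝ, 0 < C ∧ ∀ f q : Polynomial ℤ, f.natDegree ≤ d → q.natDegree ≤ d →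
    ∀ T : ℝ, 0 ≤ T → (∀ k, |(((f * q).coeff k : ℤ) : ℝ)| ≤ T) → ∀ i j,
      |((f.coeff i : ℤ) : ℝ)| * |((q.coeff j : ℤ) : ℝ)| ≤ C * T

/-- **JOB FMIN** (0.5 h), `theorem fmin : S_fmin`.
`f` = primitive integral polynomial proportional to the product of the different minimal polynomials
over `ℚ` of the `x i`, or: the polynomials `g ∈ ℚ[X]` with `g(x i) = 0` for all `i` are a nonzero
ideal, generated by `p`; let `f ∈ ℤ[X]` be primitive and proportional to `p`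
(`Polynomial.IsPrimitive`, `IsLocalization.integerNormalization` / `Polynomial.primPart`). It has `m`
different roots, so degree at least `m`. If `g ∈ ℤ[X]` vanishes at all `x i`, then `f ∣ g` in `ℚ[X]`,
so in `ℤ[X]` by Gauss' lemma (`Polynomial.IsPrimitive.Int.dvd_iff_map_cast_dvd_map_cast`; for it make
`g` primitive first, the case `g = 0` being trivial). -/
def S_fmin : Prop :=
  ∀ (m : ℕ) (x : Fin m → ℂ), Function.Injective x → (∀ i, IsAlgebraic ℚ (x i)) →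
    ∃ f : Polynomial ℤ, f ≠ 0 ∧ m ≤ f.natDegree ∧ (∀ i, Polynomial.aeval (x i) f = 0) ∧
      ∀ g : Polynomial ℤ, (∀ i, Polynomial.aeval (x i) g = 0) → f ∣ g

/-- **JOB BIN** (0.9 h), `theorem bin (h1 : S_gelf) (h2 : S_fmin) : S_bin`.
`f` from `S_fmin`, `Z` the largest absolute value of its coefficients (`Z ≥ 1`). If `f` has degree
`> d`, only `g = 0` is counted and `Y ^ (d + 1 - m) ≤ H ^ (d + 1 - m)`. Otherwise `S_root`
(`Pool.Agent.W347.GE.root`) for the coefficients of `f` at `ξ` gives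
`Y ^ (2 D) ≤ mulHeight₁ ξ ≤ (2 Z ^ 2) ^ [K : ℚ] ≤ (2 Z ^ 2) ^ D`, so `Y ≤ 2 Z`. A counted `g` gives a
polynomial divisible by `f`, `g = f q`, `q` of degree at most `d - m`, and by `S_gelf` all coefficients
of `q` are at most `C_d 2 H / Z ≤ 4 C_d H / Y` in absolute value. So there are at most
`(8 C_d H / Y + 1) ^ (d + 1 - m) ≤ ((8 C_d + 1) H / Y) ^ (d + 1 - m)` such `q`. -/
def S_bin : Prop :=
  ∀ D m d : ℕ, 1 ≤ D → 1 ≤ m → m ≤ d + 1 → ∃ C : ℝ, 0 < C ∧ ∀ H : ℕ, 1 ≤ H → ∀ Y : ℝ, 1 ≤ Y →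
    Y ≤ H → ∀ x : Fin m → ℂ, Function.Injective x → (∀ i, IsAlgebraic ℚ (x i)) →
    ∀ (i₀ : Fin m) (K : Type) [Field K] [NumberField K] (φ : K →+* ℂ) (ξ : K),
    Module.finrank ℚ K ≤ D → φ ξ = x i₀ → Y ^ (2 * D) ≤ mulHeight₁ ξ →
    ({g : Fin (d + 1) → ℤ | (∀ k, |g k| ≤ 2 * (H : ℤ)) ∧
      ∀ i, ∑ k, (g k : ℂ) * x i ^ (k : ℕ) = 0}.ncard : ℝ) * Y ^ (d + 1 - m) ≤
        C * (H : ℝ) ^ (d + 1 - m)

/-- **JOB LINH** (0.6 h), `theorem linh : S_linh`.
(1) For an integral matrix `B` with entries at most `R'` in absolute value, `Q : Fin n → K` with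
`B Q ≠ 0`: `mulHeight (B Q) ≤ (n R') ^ [K : ℚ] mulHeight Q` (at a finite place the maximum of the
coordinates of `B Q` is at most that of `Q`, at an infinite place at most `n R'` times it; see
`Mathlib/NumberTheory/Height`, or `Height.mulHeight_linearMap_apply_le` if available; constants only
depend on `n`, `R'` and the degree). (2) Apply it to `B = adjugate A`, `Q = A P`:
`B Q = det A • P`, and `mulHeight (det A • P) = mulHeight P`. If `P = 0` both heights are those of the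
zero vector. -/
def S_linh : Prop :=
  ∀ n D R : ℕ, ∃ C : ℝ, 0 < C ∧ ∀ (K : Type) [Field K] [NumberField K], Module.finrank ℚ K ≤ D →
    ∀ A : Matrix (Fin n) (Fin n) ℤ, (∀ i j, |A i j| ≤ (R : ℤ)) → A.det ≠ 0 →
    ∀ P : Fin n → K, mulHeight P ≤ C * mulHeight (fun i => ∑ j, (A i j : K) * P j)

/-- **JOB PROJ** (0.9 h), `theorem proj (h : S_linh) : S_proj`.
For `t : ℕ` let `u_t = (1, t, …, t ^ N)`. A nonzero vector `y` of `ℂ ^ (N + 1)` satisfies
`∑ u_t j * y j = 0` for at most `N` numbers `t`. So for some `s ≤ m N` the vector `v = u_s` has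
`v · z i ≠ 0` for all `i`. For `i ≠ k` the vector `z i / (v · z i) - z k / (v · z k)` is not zero, so
for all but at most `N m ^ 2` numbers `t` the ratios `(u_t · z i) / (v · z i)` are pairwise different.
Choose `N + 1` such numbers `t₀ < … < t_N` in `{0, …, N m ^ 2 + N}`. The Vandermonde matrix `A` with rows
`u_(t_k)` has nonzero determinant, so by `S_linh` `mulHeight P ≤ C mulHeight (y)`, `y = A P`. With
`v · P ≠ 0` as additional coordinate, `S_prod` (`Pool.Agent.W135.GE.prod`, for `n = N + 2`) gives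
`mulHeight y ≤ mulHeight (y, v · P) ≤ ∏ k, mulHeight₁ (y k / (v · P))` (`mulHeight_comp_le`), so
`mulHeight P ≤ C * (max_k mulHeight₁ (y k / (v · P))) ^ (N + 1)`. Take `u = u_(t_k)` for the maximal `k`. -/
def S_proj : Prop :=
  ∀ N D m : ℕ, ∃ (R : ℕ) (C : ℝ), 0 < C ∧ ∀ z : Fin m → Fin (N + 1) → ℂ, Sep z →
    ∀ (i₀ : Fin m) (K : Type) [Field K] [NumberField K] (φ : K →+* ℂ) (P : Fin (N + 1) → K),
    Module.finrank ℚ K ≤ D → P ≠ 0 → (z i₀ = fun j => φ (P j)) →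
    ∃ u v : Fin (N + 1) → ℤ, (∀ j, |u j| ≤ (R : ℤ)) ∧ (∀ j, |v j| ≤ (R : ℤ)) ∧
      (∀ i, ∑ j, (v j : ℂ) * z i j ≠ 0) ∧
      Function.Injective (fun i => (∑ j, (u j : ℂ) * z i j) / ∑ j, (v j : ℂ) * z i j) ∧
      mulHeight P ≤ C * mulHeight₁ ((∑ j, (u j : K) * P j) / ∑ j, (v j : K) * P j) ^ (N + 1)

/-- **JOB JPK** (1.0 h), `theorem jpk (h1 : S_bin) (h2 : S_proj) (h3 : S_vdim) : S_jpk`.
Let `z i₀` be represented by `P` over `K` with `Y ^ (2 D (N + 1)) ≤ mulHeight P`, and let `u`, `v` be as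
in `S_proj`, `ξ = (u · P) / (v · P)`. Then `mulHeight₁ ξ ≥ (Y / C') ^ (2 D)` with
`C' ^ (2 D (N + 1)) ≥ C`, `C' ≥ 1`. If `Y ≤ C'` the claim follows from `S_vdim` (as
`(4 H + 1) ^ (M - m) ≤ (5 H) ^ (M - m)`). Let `Y' = Y / C' ≥ 1`. The numbers
`x i = (u · z i) / (v · z i)` are different and algebraic. To `g : Fin (d + 1) → ℤ`, `|g k| ≤ H`,
attach the form `G = ∑ k, g k (u · X) ^ k (v · X) ^ (d - k)`, with coefficients at most `R₁ H`, `R₁`
depending on `N, d, R` only, and `ev G (z i) = (v · z i) ^ d ∑ k, g k x_i ^ k`. By `S_bin` and the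
pigeonhole principle there are at least
`(2 H + 1) ^ (d + 1) / (C H ^ (d + 1 - m) / Y' ^ (d + 1 - m)) ≥ C⁻¹ H ^ m Y' ^ (d + 1 - m)` of them with
different systems of values `(ev G (z i))_i` (two `g` with the same values differ by one of the at most
`C (H / Y') ^ (d + 1 - m)` forms counted in `S_bin`). Adding to each of them the `nzj z d (2 H)` forms
which vanish at all `z i` we get different forms with coefficients at most `(R₁ + 2) H`, so
`nzj z d (2 H) * H ^ m * Y' ^ (d + 1 - m) ≤ C (2 (R₁ + 2) H + 1) ^ M`. -/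
def S_jpk : Prop :=
  ∀ N D m d : ℕ, 1 ≤ N → 1 ≤ D → 1 ≤ m → m ≤ d + 1 → ∃ C : ℝ, 0 < C ∧ ∀ H : ℕ, 1 ≤ H →
    ∀ Y : ℝ, 1 ≤ Y → Y ≤ H → ∀ z : Fin m → Fin (N + 1) → ℂ, Sep z →
    (∀ i, Rep (N + 1) D (fun _ _ _ _ => True) (z i)) →
    (∃ i, Rep (N + 1) D (fun _ _ _ P => Y ^ (2 * D * (N + 1)) ≤ mulHeight P) (z i)) →
    (nzj z d (2 * H) : ℝ) * Y ^ (d + 1 - m) ≤ C * (H : ℝ) ^ (MM N d - m)

/-- **JOB LEV** (0.8 h), `theorem lev (h1 : S_tup) (h2 : S_norm) (h3 : S_jpk) : S_lev`.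
`c`, `C₂` from `S_pts` for `D`, `A` its set for `X = 2 ^ (κ + 1)`, `Y = 2 ^ (κ / (2 D (N + 1)))` (real
exponent), so `Y ^ (2 D (N + 1)) = 2 ^ κ` and `1 ≤ Y ≤ H`. By `S_norm` and `S_jpk` (`nzj` and `Sep` do
not change if the vectors are multiplied by nonzero numbers) all `F` in the set are in the set of
`S_tup` with `R = C H ^ (M - m) / Y ^ (d + 1 - m)`. The bound is
`C' H ^ M (H ^ (M - m)) ^ N (2 ^ ((κ + 1) c)) ^ (2 m (N + 1)) / Y ^ ((d + 1 - m) N)`, and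
`Y ^ ((d + 1 - m) N) ≥ 2 ^ (κ (2 m c (N + 1) + 1))` if `d ≥ d₀`. -/
def S_lev : Prop :=
  ∀ N D m : ℕ, 1 ≤ N → 1 ≤ D → 1 ≤ m → ∃ d₀ : ℕ, ∀ d, d₀ ≤ d → ∃ C : ℝ, 0 < C ∧
    ∀ H : ℕ, 1 ≤ H → ∀ κ : ℕ, (2 : ℝ) ^ κ ≤ H →
    cnt N d H (fun F => ∃ z : Fin m → Fin (N + 1) → ℂ, Sep z ∧
      (∀ i, Rep (N + 1) D
        (fun K _ _ P => mulHeight P ≤ 2 ^ (κ + 1) ∧ mulHeight (fm F K P) ≤ 2 ^ (κ + 1)) (z i)) ∧
      ∃ i, Rep (N + 1) D (fun _ _ _ P => (2 : ℝ) ^ κ ≤ mulHeight P) (z i)) ≤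
      C * (H : ℝ) ^ (QQ N d - m * N) * (1 / 2) ^ κ

/-- **JOB PPC** (0.9 h), `theorem ppc (h1 : S_tail) (h2 : S_lev) : S_ppc`.
`d₀` from `S_tail` with `s = 1`, `a = m N`, from `S_lev`, and `m`. Let `κ₀` be the least number with
`H ≤ 2 ^ κ₀`. By `S_tail` at most `C H ^ (Q - N) 2 ^ (- m N κ₀) ≤ C H ^ (Q - m N)` systems have
`Tl D 1 κ₀ F`. Let `F` be another one with `m` preperiodic points `z i`. If a vector `P ≠ 0` over a
number field of degree at most `D` is preperiodic for `F`, then `mulHeight P < 2 ^ κ₀`: the heights of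
its iterates take finitely many values (`mulHeight_smul_eq_mulHeight`), let `R` be an iterate with the
largest height; then `mulHeight (fm F K R) ≤ mulHeight R`, and `2 ^ κ₀ ≤ mulHeight P ≤ mulHeight R`
would give `Tl D 1 κ₀ F`. Let `κ` be the largest number such that some such preperiodic `(K, P)` has
`2 ^ κ ≤ mulHeight P`; so `κ < κ₀`, hence `2 ^ κ < H`, and all preperiodic vectors have height less than
`2 ^ (κ + 1)`; their images are preperiodic, too. Embed `K` in `ℂ`; if `φ P` is proportional to some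
`z i`, replace `z i` by `φ P`, otherwise replace `z 0` by `φ P`. So `F` is in the set of `S_lev` for
`κ`. Sum `(1 / 2) ^ κ` over `κ < κ₀`. -/
def S_ppc : Prop :=
  ∀ N D m : ℕ, 1 ≤ N → 1 ≤ D → 1 ≤ m → ∃ d₀ : ℕ, ∀ d, d₀ ≤ d → ∃ C : ℝ, 0 < C ∧
    ∀ H : ℕ, 1 ≤ H →
      cnt N d H (fun F => Many (N + 1) D m (fun K _ _ P => Pp F K P)) ≤
        C * (H : ℝ) ^ (QQ N d - m * N)

/-- **JOB UPF** (0.7 h), `theorem upf (h1 : S_upe) (h2 : S_ppc) : S_upf`.
`d₀` the maximum of those of `S_upe`, `S_ppc` and `2`. Let `θ'` be the number of `S_upe`,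
`θ = θ' / d ^ m`. Let `F` have `m` points `z i` with `Pp ∨ ¬ Gr θ`. If all are `Pp`, use `S_ppc`.
Otherwise some `z i = φ P` has `¬ Pp F K P` and `¬ Gr θ H F K P`. The vectors
`φ (F^k (P))`, `k = 0, …, m`, are nonzero (`image_ne_zero`) and pairwise not proportional: if
`φ (F^l (P)) = c • φ (F^k (P))`, then `c = φ c'` for a quotient `c' ≠ 0` of coordinates, and `P` would
be preperiodic. And `¬ Gr θ' H F K (F^k (P))`: otherwise, for large `j`,
`log mulHeight (F^(j + k) (P)) ≥ θ' d ^ j log H [K:ℚ] ≥ θ d ^ (j + k) log H [K:ℚ]`, so `Gr θ H F K P`.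
So `F` is in the set of `S_upe`. -/
def S_upf : Prop :=
  ∀ N D m : ℕ, 1 ≤ N → 1 ≤ D → 1 ≤ m → ∃ d₀ : ℕ, ∀ d, d₀ ≤ d → ∃ C θ : ℝ, 0 < C ∧ 0 < θ ∧
    ∀ H : ℕ, 1 ≤ H →
      cnt N d H (fun F => Many (N + 1) D m (fun K _ _ P => Pp F K P ∨ ¬ Gr θ H F K P)) ≤
        C * (H : ℝ) ^ (QQ N d - m * N)

/-! ### The lower bound -/

/-- the points `(1 : i : 0 : … : 0)` -/
def pt (N i : ℕ) : Fin (N + 1) → ℤ := fun j => if j.1 = 0 then 1 else if j.1 = 1 then (i : ℤ) else 0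

/-- **JOB TRI** (0.6 h), `theorem tri : S_tri`.
Generalisation of `noZero_of_mod_two` (`Pool/Agent/W376/GE/LB.lean`, whose lemmas `AA`, `gm`, `jj` you
may import): modulo `q` the square matrix `AA hd F` (rows `α`, entry at `β` the coefficient of
`F_j x ^ (α - d e_j)` at `β`, `j = jj α`) is block triangular: if its entry at `(α, β)` is not zero and
`α ≠ β`, then `j ≠ 0` and `β 0 > α 0` (the exponent `γ = β - (α - d e_j)` is not `d e_j`, so
`γ 0 ≥ 1`, and `(α - d e_j) 0 = α 0`). Diagonal entries are `-1`. So its determinant is `± 1` modulo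
`q` (`Matrix.BlockTriangular`, `Matrix.det_of_upperTriangular` for an order refining `α 0`, or
`BlockTriangular.det_fintype` with blocks `- 1`), hence not zero as `q ≥ 2`; the rest of the proof is
the same. -/
def S_tri : Prop :=
  ∀ (n d q : ℕ), 1 ≤ d → 2 ≤ q → ∀ F : Fin (n + 1) → E (n + 1) d → ℤ,
    (∀ j, ((F j (Pool.Agent.W376.GE.pw d j) : ℤ) : ZMod q) = -1) →
    (∀ j α, α ≠ Pool.Agent.W376.GE.pw d j → ((F j α : ℤ) : ZMod q) ≠ 0 → j ≠ 0 ∧ 1 ≤ α.1 0) →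
    NoZero F

/-- **JOB STAR** (0.9 h), `theorem star : S_star`.
`L = (m - 1)!`. With `x = X_0`, `y = X_1`: `F_0 = L X_0 ^ d`, `F_j = L X_j ^ d` for `j ≥ 2`, and
`F_1 = x ^ (d - m + 1) ∑ i, σ(i) (-1) ^ (m - 1 - i) choose (m - 1) i ∏_{k ≠ i} (y - k x)
 + L y ^ (d - m) ∏_{i < m} (y - i x)`.
The first sum is `L` times the (homogenised) Lagrange polynomial with value `σ(i)` at `y / x = i`, as
`∏_{k ≠ i} (i - k) = i! (m - 1 - i)! (-1) ^ (m - 1 - i)`. So `F_1 (1, i, 0, …) = L σ(i)`. In `F_1` the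
coefficient of `y ^ d` is `L` (the first term is divisible by `x`, as `d - m + 1 ≥ 1`), and all other
monomials contain `x`. Products of forms: use `MvPolynomial` or polynomials in one variable
homogenised (`F_1 = ∑ k, a k x ^ k y ^ (d - k)`; then only the numbers `a k` matter). -/
def S_star : Prop :=
  ∀ N d m : ℕ, 1 ≤ N → 1 ≤ m → m ≤ d → ∀ σ : Fin m → Fin m, ∃ (L : ℕ) (F : Sy N d), 1 ≤ L ∧
    (∀ j, F j (Pool.Agent.W376.GE.pw d j) = L) ∧
    (∀ j α, α ≠ Pool.Agent.W376.GE.pw d j → F j α ≠ 0 → j ≠ 0 ∧ 1 ≤ α.1 0) ∧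
    ∀ i j, ev (F j) (pt N (i : Fin m)) = (L : ℤ) * pt N (σ i) j

/-- **JOB PIG** (0.7 h), `theorem pig : S_pig`.
Let `H' = H / 2` (natural division), so `2 H' + 1 ≥ H`. To `G ∈ Fb (N + 1) d H'` attach the integers
`ev (G j) (pt i) - pt (σ i) j * ev (G 0) (pt i)`, `i : Fin m`, `j ≠ 0` (`m N` integers), which are at
most `C₁ H` in absolute value, `C₁` depending on `N, d, m`. By the pigeonhole principle at least
`(2 H' + 1) ^ Q / (2 C₁ H + 1) ^ (m N)` systems `G` have the same integers; the differences with a fixed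
one of them are in `Fb (N + 1) d H` and are in the set (for `j = 0` the condition is trivial, as
`pt (σ i) 0 = 1`). -/
def S_pig : Prop :=
  ∀ N d m : ℕ, m * N ≤ QQ N d → ∀ σ : Fin m → Fin m, ∃ C : ℕ, ∀ H : ℕ, 1 ≤ H →
    H ^ (QQ N d - m * N) ≤ C * {G : Sy N d | G ∈ Fb (N + 1) d H ∧
      ∀ i j, ev (G j) (pt N (i : Fin m)) = ev (G 0) (pt N i) * pt N (σ i) j}.ncard

/-- **JOB SLOW** (0.7 h), `theorem slow (h1 : S_tri) (h2 : S_star) (h3 : S_pig) : S_slow`.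
`L`, `F*` from `S_star`, `q = L + 1`, `F = F* + q G` with `G` in the set of `S_pig` for
`H' = (H - B) / q`, `B` a bound for the coefficients of `F*` (for `H ≥ 2 B + 2 q` we have
`H' ≥ H / (4 q)`). `F` is in `Fb (N + 1) d H`, `NoZero F` by `S_tri` (modulo `q` we have `F = F*` and
`L = -1`), `F (pt i) = c pt (σ i)` with `c = L + q ev (G 0) (pt i) ≠ 0` (it is `-1` modulo
`q ≥ 2`), and `G ↦ F` is injective. -/
def S_slow : Prop :=
  ∀ N d m : ℕ, 1 ≤ N → 1 ≤ m → m ≤ d → ∀ σ : Fin m → Fin m, ∃ C : ℕ, 1 ≤ C ∧ ∀ H : ℕ, C ≤ H →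
    H ^ (QQ N d - m * N) ≤ C * {F : Sy N d | F ∈ Fb (N + 1) d H ∧ NoZero F ∧
      ∀ i : Fin m, ∃ c : ℤ, c ≠ 0 ∧ ∀ j, ev (F j) (pt N i) = c * pt N (σ i) j}.ncard

/-- **JOB EXA** (0.8 h), `theorem exa (h1 : S_upf) (h2 : S_slow) : S_exa`.
Let `C₁`, `θ` be the constants of `S_upf` for `m + 1` and `C₂` that of `S_slow`. The systems counted in
`S_slow` are at least `H ^ (Q - m N) / C₂`; at most `C₁ H ^ (Q - (m + 1) N)` of them have at least
`m + 1` points with `Pp ∨ ¬ Gr θ`, which is less than half of it if `H` is large (`N ≥ 1`,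
`(m + 1) N ≤ Q`). For the remaining `F`: let `z` be a vector with
`Rep (N + 1) D (Pp ∨ ¬ Gr θ)`. If it is not proportional to one of the vectors `pt i`, then these `m`
vectors (which are preperiodic over `ℚ` (iterate `σ`), nonzero and pairwise not proportional) together
with `z` show that `F` has `m + 1` such points. -/
def S_exa : Prop :=
  ∀ N D m : ℕ, 1 ≤ N → 1 ≤ D → 1 ≤ m → ∃ d₀ : ℕ, ∀ d, d₀ ≤ d → ∃ θ : ℝ, 0 < θ ∧
    ∀ σ : Fin m → Fin m, ∃ C : ℝ, 0 < C ∧ ∀ H : ℕ, C ≤ (H : ℝ) →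
    (H : ℝ) ^ (QQ N d - m * N) ≤ C * cnt N d H (fun F =>
      (∀ i : Fin m, ∃ c : ℤ, c ≠ 0 ∧ ∀ j, ev (F j) (pt N i) = c * pt N (σ i) j) ∧
      ∀ z : Fin (N + 1) → ℂ,
        Rep (N + 1) D (fun K _ _ P => Pp F K P ∨ ¬ Gr θ H F K P) z →
        ∃ (i : Fin m) (c : ℂ), z = c • fun j => (pt N i j : ℂ))

end Pool.Agent.Q256.MP
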