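import Pool.Agent.Q256.MP.Stm

/-!
# Project MP, second part: the asymptotic law

The number of endomorphisms with exactly `m` small points (preperiodic or of canonical height
`< θ log H`, of degree at most `D`) and with a given portrait, divided by `H ^ (Q - m N)`, converges to
a positive number.
-/

set_option autoImplicit false

open Height NumberField Filter Topology
open scoped LinearAlgebra.Projectivization

noncomputable section

namespace Pool.Agent.Q256.MP

open Pool.Agent.W276.GE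

/-- the points of `ℙ^N(ℂ)` -/
abbrev Pt (N : ℕ) : Type := ℙ ℂ (Fin (N + 1) → ℂ)

/-- the points with coordinates with the property `Φ` over a number field of degree at most `D` -/
def Rp (N D : ℕ) (Φ : ∀ (K : Type) [Field K] [NumberField K], (Fin (N + 1) → K) → Prop) :
    Set (Pt N) :=
  {p | ∃ (z : Fin (N + 1) → ℂ) (h : z ≠ 0), p = Projectivization.mk ℂ z h ∧ Rep (N + 1) D Φ z}

/-- the small points of `F` -/
def Sm (N D : ℕ) {d : ℕ} (θ : ℝ) (H : ℕ) (F : Sy N d) : Set (Pt N) :=
  Rp N D (fun K _ _ P => Pp F K P ∨ ¬ Gr θ H F K P)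

/-- `F` maps the point `p` to `q` (or to zero) -/
def Im {N d : ℕ} (F : Sy N d) (p q : Pt N) : Prop := ∃ c : ℂ, ∀ j, ev (F j) p.rep = c * q.rep j

/-- `F` has exactly `m` small points, and it acts on them as some `σ ∈ S` -/
def Por (N D : ℕ) {d m : ℕ} (θ : ℝ) (S : Set (Fin m → Fin m)) (H : ℕ) (F : Sy N d) : Prop :=
  ∃ σ ∈ S, ∃ p : Fin m → Pt N, Function.Injective p ∧ Sm N D θ H F = Set.range p ∧
    ∀ i, Im F (p i) (p (σ i))

/-- all coordinate vectors, over number fields of degree at most `D`, of the points in `Z` have height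
less than `2 ^ (κ + 1)`, and one of them has height at least `2 ^ κ` -/
def Lv (N D κ : ℕ) (Z : Set (Pt N)) : Prop :=
  (∀ p ∈ Z, p ∉ Rp N D (fun _ _ _ P => (2 : ℝ) ^ (κ + 1) ≤ mulHeight P)) ∧
    ∃ p ∈ Z, p ∈ Rp N D (fun _ _ _ P => (2 : ℝ) ^ κ ≤ mulHeight P)

/-- **JOB LAT** (0.7 h), `theorem lat : S_lat`.
`L` is free with a basis `b_1, …, b_s`, `s = finrank L ≤ r`. The elements of `L` in the box correspond
to the `a ∈ ℤ ^ s` in `H • B`, `B = {x ∈ ℝ ^ s | |∑ x_k b_k i| ≤ 1 for all i}`, a compact convex set (the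
`b_k` are linearly independent over `ℝ` as they are over `ℤ`, so `B` is bounded). By
`tendsto_card_div_pow_atTop_volume` (`Mathlib/Analysis/BoxIntegral/UnitPartition.lean`; the frontier
of a convex set is a null set: `Convex.addHaar_frontier`) the number divided by `H ^ s` tends to
`vol B`. Divide by `H ^ (r - s)` (limit `0` if `s < r`). -/
def S_lat : Prop :=
  ∀ (ι : Type) [Fintype ι] (L : Submodule ℤ (ι → ℤ)) (r : ℕ), Module.finrank ℤ L ≤ r →
    ∃ c : ℝ, Tendsto (fun H : ℕ =>
      ({g : ι → ℤ | (∀ i, |g i| ≤ (H : ℤ)) ∧ g ∈ L}.ncard : ℝ) / (H : ℝ) ^ r) atTop (𝓝 c)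

/-- **JOB SZ** (0.7 h), `theorem sz : S_sz`.
With a basis `b_1, …, b_s` of `L`, `s ≤ r`: the coordinates `a_k` of a `g ∈ L` in the box are at most
`C' H` in absolute value (they are linear functions of `g` over `ℚ`), and `P(a) = p(∑ a_k b_k)` is a
polynomial in `s` variables which is not zero, as it does not vanish at all integral points. By the
Schwartz-Zippel lemma (`Mathlib/Algebra/MvPolynomial/SchwartzZippel.lean`) it has at most
`deg P * (2 C' H + 1) ^ (s - 1)` zeros in the box (none if `s = 0`). -/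
def S_sz : Prop :=
  ∀ (ι : Type) [Fintype ι] (L : Submodule ℤ (ι → ℤ)) (r : ℕ), Module.finrank ℤ L ≤ r →
    ∀ p : MvPolynomial ι ℤ, (∃ g ∈ L, MvPolynomial.eval g p ≠ 0) → ∃ C : ℝ, ∀ H : ℕ, 1 ≤ H →
      ({g : ι → ℤ | (∀ i, |g i| ≤ (H : ℤ)) ∧ g ∈ L ∧ MvPolynomial.eval g p = 0}.ncard : ℝ) ≤
        C * (H : ℝ) ^ (r - 1)

/-- **JOB NZP** (0.7 h), `theorem nzp : S_nzp`.
`t = (N + 1) (d - 1) + 1`. By `S_span` (proved: `Pool.Agent.W405.GE.span_of_mac
(Pool.Agent.W216.GE.mac Pool.Agent.W85.GE.perm Pool.Agent.W333.GELin.lin Pool.Agent.W366.GE.hyp)`)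
`Spans F₀ t`: the rows `(j, γ)` of the matrix with entries `sh (F₀ j) γ α`, `α : E (N + 1) t`, span
`E (N + 1) t → ℝ`; so there are `card (E (N + 1) t)` rows (an injection or a map
`E (N + 1) t → Fin (N + 1) × E (N + 1) (t - d)`) such that the square matrix of these rows is
invertible. Let `p` be the determinant of these rows for indeterminate coefficients (`sh` is linear in
the form: each entry is a variable or zero). If `p` does not vanish at `F`, then `NoZero F`, exactly as
in `noZero_of_mod_two` in `Pool/Agent/W376/GE/LB.lean` (the part after `hdet`). -/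
def S_nzp : Prop :=
  ∀ (N d : ℕ) (F₀ : Sy N d), 1 ≤ d → NoZero F₀ →
    ∃ p : MvPolynomial (Fin (N + 1) × E (N + 1) d) ℤ,
      MvPolynomial.eval (fun x => F₀ x.1 x.2) p ≠ 0 ∧
      ∀ F : Sy N d, MvPolynomial.eval (fun x => F x.1 x.2) p ≠ 0 → NoZero F

/-- **JOB ZLIM** (0.7 h),
`theorem zlim (h1 : S_lat) (h2 : S_sz) (h3 : S_nzp) (h4 : S_vdim) (h5 : S_fib) : S_zlim`.
The `F` with `Cf z w F`, as functions on `Fin (N + 1) × E (N + 1) d`, form a submodule `L`. By `S_fib`
and `S_vdim` at most `C H ^ M ((4 H + 1) ^ (M - m)) ^ N ≤ C' H ^ (Q - m N)` of them are in the box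
(`m ≤ d + 1 ≤ M`, see `m_le` in `Pool/Agent/Q176/MP/Smc.lean`), so the rank `s` of `L` is at most
`Q - m N` (the combinations of `s` independent elements with coefficients at most `c H` are
`(c H) ^ s` elements of `L` in the box). If no `F ∈ L` has `NoZero F`, the limit is `0`. Otherwise take
the polynomial `p` of `S_nzp` for such an `F`: by `S_sz` the `F ∈ L` in the box with `p(F) = 0` are at
most `C H ^ (Q - m N - 1)` (or use this bound only if `Q - m N ≥ 1`, which holds as `Q > m N`), and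
by `S_lat` the limit for all `F ∈ L` exists; squeeze. -/
def S_zlim : Prop :=
  ∀ N d m : ℕ, 1 ≤ N → 1 ≤ d → 1 ≤ m → m ≤ d + 1 → ∀ z w : Fin m → Fin (N + 1) → ℂ, Sep z →
    (∀ i, w i ≠ 0) → ∃ v : ℝ,
      Tendsto (fun H : ℕ => cnt N d H (Cf z w) / (H : ℝ) ^ (QQ N d - m * N)) atTop (𝓝 v)

/-- **JOB PLIM** (0.7 h), `theorem plim (h1 : S_zlim) (h2 : S_upf) : S_plim`.
`θ₀` the number of `S_upf` for `m + 1`, `d₀` that of `S_upf` and `m + 1`. Let
`b(H) = cnt N d H (fun F => ∀ i, Im F (p i) (p (σ i)))`; this is the count of `S_zlim` for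
`z i = (p i).rep`, `w i = (p (σ i)).rep` (`Sep z`, as `p` is injective:
`Projectivization.mk_rep`, `Projectivization.mk_eq_mk_iff'`), so `b(H) / H ^ (Q - m N)` converges. If
`NoZero F` and `∀ i, Im F (p i) (p (σ i))`, then the points `p i` are small: they have coordinates over
number fields of degree at most `D` by assumption, and they are preperiodic (the iterates of `p i` are
the `p (σ^k i)`, a finite set; if two iterates of a vector `P` over `K ⊂ ℂ` are proportional over `ℂ`
they are so over `K`). So if the set of small points is not `range p`, there are at least `m + 1`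
small points: `Many (N + 1) D (m + 1) (Pp ∨ ¬ Gr θ)`, hence also for `θ₀ ≥ θ` (`Gr` for `θ₀` implies
`Gr` for `θ`, `log H ≥ 0`), and by `S_upf` these are at most
`C H ^ (Q - (m + 1) N)`, which is `o(H ^ (Q - m N))` (`Q ≥ (m + 1) N`). -/
def S_plim : Prop :=
  ∀ N D m : ℕ, 1 ≤ N → 1 ≤ D → 1 ≤ m → ∃ d₀ : ℕ, ∀ d, d₀ ≤ d → ∃ θ₀ : ℝ, 0 < θ₀ ∧
    ∀ θ : ℝ, 0 < θ → θ ≤ θ₀ → ∀ (σ : Fin m → Fin m) (p : Fin m → Pt N), Function.Injective p →
    (∀ i, p i ∈ Rp N D (fun _ _ _ _ => True)) → ∃ v : ℝ,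
      Tendsto (fun H : ℕ => cnt N d H (fun F => Sm N D θ H F = Set.range p ∧
        ∀ i, Im F (p i) (p (σ i))) / (H : ℝ) ^ (QQ N d - m * N)) atTop (𝓝 v)

/-- **JOB LIMK** (0.9 h), `theorem limk (h : S_plim) : S_limk`.
The points with coordinates of height at most `2 ^ (κ + 1)` over a number field of degree at most `D`
form a finite set `T` (`S_pts`, `Pool.Agent.W32.GE.pts`, and `exists_norm`: each such point has a
coordinate vector with coordinates in a finite set). If `Por ... F` and `Lv N D κ (Sm N D θ H F)` with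
`σ`, `p`, then `p i ∈ T` for all `i`. Let `I` be the finite set of the pairs `(σ, p)`, `σ ∈ S`,
`p : Fin m → T` injective, `Lv N D κ (range p)`, `p i ∈ Rp N D (fun _ _ _ _ => True)`, and let
`G(σ, p) = {(p i, p (σ i))}` (a finite set of pairs of points). For `NoZero F` the image of a point is
unique, so the set `{(x, y) | x ∈ Sm F, Im F x y}` is determined by `F` and it is `G(σ, p)` if
`Sm F = range p` and `∀ i, Im F (p i) (p (σ i))`. So the set of `F` to be counted is the disjoint union,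
over the finitely many sets `G(σ, p)`, `(σ, p) ∈ I`, of the sets counted in `S_plim` for one chosen pair
`(σ, p)` with this `G`. A finite sum of convergent sequences converges. -/
def S_limk : Prop :=
  ∀ N D m : ℕ, 1 ≤ N → 1 ≤ D → 1 ≤ m → ∃ d₀ : ℕ, ∀ d, d₀ ≤ d → ∃ θ₀ : ℝ, 0 < θ₀ ∧
    ∀ θ : ℝ, 0 < θ → θ ≤ θ₀ → ∀ (S : Set (Fin m → Fin m)) (κ : ℕ), ∃ v : ℝ,
      Tendsto (fun H : ℕ => cnt N d H (fun F => Por N D θ S H F ∧ Lv N D κ (Sm N D θ H F)) /
        (H : ℝ) ^ (QQ N d - m * N)) atTop (𝓝 v)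

/-- **JOB TAN** (1.0 h),
`theorem tan (h1 : S_limk) (h2 : S_lev) (h3 : S_tail) (h4 : S_exa) : S_tan`.
`θ₀` the minimum of those of `S_limk` and `S_exa`, `d₀` the maximum of those of `S_limk`, `S_lev`,
`S_exa`, `S_tail` for `s = 1`, `a = m N`, and of `m + 1`. Let `a_κ(H)` be the count of `S_limk` divided
by `H ^ (Q - m N)` if `2 ^ κ ≤ H`, and `0` otherwise. (1) If `Por` holds for `F`, all small points are
preperiodic (their images are among them; compare JOB PLIM), their images are of height less than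
`2 ^ (κ + 1)` if `Lv N D κ` holds, so by `S_lev` `a_κ(H) ≤ C (1 / 2) ^ κ`. By
`tendsto_tsum_of_dominated_convergence` `∑ a_κ(H) → v := ∑ v_κ`, `v_κ` the limits of `S_limk`.
(2) Let `κ₀` be the least number with `H ≤ 2 ^ κ₀`. For different `κ` the conditions `Lv N D κ` exclude
each other. If `F` satisfies `Por` and `¬ Tl D 1 κ₀ F`, then all coordinate vectors of small points have
height less than `2 ^ κ₀` (the largest height in the orbit of a preperiodic point, as in JOB PPC), so
`Lv N D κ` holds for some `κ < κ₀`, so `2 ^ κ < H`. So the count of `Por` differs from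
`H ^ (Q - m N) ∑ a_κ(H)` (a finite sum) by at most the number of `F` with `Tl D 1 κ₀ F`, which is at
most `C H ^ (Q - N) 2 ^ (- m N κ₀) ≤ C H ^ (Q - (m + 1) N)` by `S_tail` (`Q ≥ (m + 1) N`).
(3) `v > 0`: let `σ ∈ S`. The `F` counted in `S_exa` (for `θ ≤ θ₀`: `¬ Gr θ` implies `¬ Gr θ₀`) satisfy
`Por` with `p i = [pt i]`: each small point is some `[pt i]`, and the `[pt i]` are preperiodic, since
`F` permutes them by `σ` (compare `pre_pt` in JOB EXA, or prove it again). So
`H ^ (Q - m N) ≤ C cnt(Por)` for large `H`. -/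
def S_tan : Prop :=
  ∀ N D m : ℕ, 1 ≤ N → 1 ≤ D → 1 ≤ m → ∃ d₀ : ℕ, ∀ d, d₀ ≤ d → ∃ θ₀ : ℝ, 0 < θ₀ ∧
    ∀ θ : ℝ, 0 < θ → θ ≤ θ₀ → ∀ S : Set (Fin m → Fin m), S.Nonempty → ∃ v : ℝ, 0 < v ∧
      Tendsto (fun H : ℕ => cnt N d H (fun F => Por N D θ S H F) /
        (H : ℝ) ^ (QQ N d - m * N)) atTop (𝓝 v)

/-- **JOB TOT** (0.7 h), `theorem tot (h1 : S_tan) (h2 : S_upf) : S_tot`.
`d₀` the maximum of those of `S_tan`, of `S_upf` for `m + 1`, and of `m + 1`; `θ'` the number of `S_upf`
for `m + 1`, `θ₀` the minimum of that of `S_tan` and `θ' / d ^ m`. Let `F` have at least `m` small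
points. If it has at least `m + 1`, then it is in the set of `S_upf` for `m + 1` (as `θ ≤ θ'`). If it
has exactly `m` and one of them is not preperiodic, then (as in JOB UPF) the first `m + 1` iterates
`F^k (P)`, `k ≤ m`, are different points with `¬ Gr θ'`, and `F` is again in the set of `S_upf` for
`m + 1`. If it has exactly `m`, all preperiodic, then their images are small points, so `F` satisfies
`Por` with `S = univ`. Conversely `Por` with `S = univ` implies at least `m` small points. So the count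
differs from that of `S_tan` for `S = univ` by at most `C H ^ (Q - (m + 1) N)`. -/
def S_tot : Prop :=
  ∀ N D m : ℕ, 1 ≤ N → 1 ≤ D → 1 ≤ m → ∃ d₀ : ℕ, ∀ d, d₀ ≤ d → ∃ θ₀ : ℝ, 0 < θ₀ ∧
    ∀ θ : ℝ, 0 < θ → θ ≤ θ₀ → ∃ v : ℝ, 0 < v ∧
      Tendsto (fun H : ℕ => cnt N d H (fun F => (m : ℕ∞) ≤ (Sm N D θ H F).encard) /
        (H : ℝ) ^ (QQ N d - m * N)) atTop (𝓝 v)

end Pool.Agent.Q256.MP
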