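import Pool.Agent.Q256.MP.Law
import Pool.Agent.TH119.MX.Gal

/-!
# Project MP, third part: the support of the limit law

`W (G) > 0` if and only if `G` is the graph of a self-map of a set of `m` points of degree at most `D`
and `G` is stable under the automorphisms of `ℂ`.
-/

set_option autoImplicit false

open Height NumberField Filter Topology
open scoped LinearAlgebra.Projectivization

noncomputable section

namespace Pool.Agent.Q256.MP

open Pool.Agent.W276.GE

theorem conj_ne {N : ℕ} (τ : ℂ ≃+* ℂ) (p : Pt N) : (fun j => τ (p.rep j)) ≠ 0 := by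
  intro h
  apply p.rep_nonzero
  funext j
  have h1 := congrFun h j
  exact (map_eq_zero τ).1 h1

/-- the conjugate of a point under an automorphism of `ℂ` -/
def conjP {N : ℕ} (τ : ℂ ≃+* ℂ) (p : Pt N) : Pt N :=
  Projectivization.mk ℂ (fun j => τ (p.rep j)) (conj_ne τ p)

/-- `G` is stable under the automorphisms of `ℂ` -/
def Stb {N : ℕ} (G : Set (Pt N × Pt N)) : Prop :=
  ∀ τ : ℂ ≃+* ℂ, ∀ x ∈ G, (conjP τ x.1, conjP τ x.2) ∈ G

/-- **JOB RINT** (0.5 h), `theorem rint : S_rint`.
Let `T : ℂ[X]` be the Lagrange interpolation polynomial (`Lagrange.interpolate`), of degree less than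
`m`, with `T (a i) = b i`. For `τ` and `π` as in the hypothesis `π` is injective (as `a` is), hence
surjective, and `T.map τ` has the value `b (π i)` at `a (π i)` for all `i`, so `T.map τ = T` (two
polynomials of degree less than `m` with the same values at `m` points). So every coefficient of `T` is
fixed by all automorphisms of `ℂ`, hence rational: `Pool.Agent.TH119.MX.exists_move` with `F = ⊥`
(`Subfield.mem_bot` or: the subfield `⊥` is contained in the range of `algebraMap ℚ ℂ`). -/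
def S_rint : Prop :=
  ∀ (m : ℕ) (a b : Fin m → ℂ), Function.Injective a →
    (∀ τ : ℂ ≃+* ℂ, ∃ π : Fin m → Fin m, ∀ i, τ (a i) = a (π i) ∧ τ (b i) = b (π i)) →
    ∃ T : Polynomial ℚ, T.degree < m ∧ ∀ i, Polynomial.aeval (a i) T = b i

/-- **JOB LINF** (0.6 h), `theorem linf : S_linf`.
By `S_avoid` (proved: `Pool.Agent.Q285.MP.avoid`) there is an integral linear form `u` which does not
vanish at the `z i` and at the first standard vector (so `u ≠ 0`). The vectors
`u(z k) z i - u(z i) z k`, `i ≠ k`, are not zero (`Sep z`). Let `j₀` be an index with `u j₀ ≠ 0` and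
`e = u j₁ e_{j₀} - u j₀ e_{j₁}` for some `j₁ ≠ j₀` (`N ≥ 1`); `e ≠ 0`, `u (e) = 0`. By `S_avoid` there
is an integral linear form `v` which vanishes neither at these vectors nor at `e`; so `u`, `v` are
linearly independent over `ℚ`. Complete `u`, `v` to a basis of `ℚ ^ (N + 1)` by standard vectors
(`LinearIndependent.extend`, exchange lemma), in the order `u` = row `0`, `v` = row `1`: the matrix of
the rows has determinant `≠ 0`. (Or explicitly: there is `j₁ ≠ j₀` with `u j₀ v j₁ ≠ u j₁ v j₀`; take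
the rows `u`, `v` and the unit vectors of the other indices.) -/
def S_linf : Prop :=
  ∀ (N m : ℕ), 1 ≤ N → ∀ z : Fin m → Fin (N + 1) → ℂ, Sep z →
    ∃ A : Matrix (Fin (N + 1)) (Fin (N + 1)) ℤ, A.det ≠ 0 ∧
      (∀ i, ∑ j, (A 0 j : ℂ) * z i j ≠ 0) ∧
      ∀ i k, i ≠ k → (∑ j, (A 0 j : ℂ) * z i j) * (∑ j, (A 1 j : ℂ) * z k j) ≠
        (∑ j, (A 0 j : ℂ) * z k j) * (∑ j, (A 1 j : ℂ) * z i j)

/-- **JOB EXI** (1.0 h), `theorem exi (h1 : S_rint) (h2 : S_linf) : S_exi`.
`z i = (p i).rep` (`Sep z`), `A` from `S_linf`, `l_j (x) = ∑ k, A j k x_k`, `y i j = l_j (z i) / l_0 (z i)`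
(so `y i 0 = 1`), `a i = y i 1`, injective. For an automorphism `τ` of `ℂ` and `i` the pair
`(conjP τ (p i), conjP τ (p (σ i)))` is `(p k, p (σ k))` for some `k =: π i`, as the graph is stable.
Since `A` is integral, and `y i` depends only on the point `p i`: `τ (y i j) = y (π i) j` and
`τ (y (σ i) j) = y (σ (π i)) j`. So `S_rint` gives for every `j` a polynomial `T j : ℚ[X]` of degree
less than `m ≤ d` with `T j (a i) = y (σ i) j - (y i j) ^ d`. Let
`G_0 (Y) = Y_0 ^ d` and `G_j (Y) = Y_j ^ d + Y_0 ^ (d - deg) ... ` i.e. `Y_j ^ d + ∑ k < m, (T j)_k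
Y_0 ^ (d - k) Y_1 ^ k` for `j ≥ 1` (`k < m ≤ d`, so `Y_0` divides the sum): forms of degree `d` over `ℚ`
with `G (y i) = y (σ i)`; if `G (Y) = 0`, then `Y_0 = 0`, so all `Y_j ^ d = 0`, `Y = 0`. Let `e ≠ 0` be
an integer such that `e G_j` has integral coefficients for all `j`, and `B = adjugate A`
(`B A = det A`). `F (x) = B (e G (A x))`, as forms with integral coefficients
(`MvPolynomial.bind₁`/`aeval` of `MvPolynomial`s over `ℤ`; then `cf d`, see `Pool/Agent/W276/GE/Conv.lean`:
`aeval_eq_ev`). `NoZero F`, as `A` and `B` are invertible over `ℂ`. `F (z i) = B (e l_0 (z i) ^ d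
y (σ i))`, and `y (σ i) = A (z (σ i)) / l_0 (z (σ i))`, so it is a multiple of `z (σ i)`. -/
def S_exi : Prop :=
  ∀ N d m : ℕ, 1 ≤ N → 1 ≤ m → m ≤ d → ∀ (σ : Fin m → Fin m) (p : Fin m → Pt N),
    Function.Injective p → Stb (Gph (σ, p)) → ∃ F : Sy N d, NoZero F ∧ ∀ i, Im F (p i) (p (σ i))

/-- **JOB DIMQ** (1.0 h), `theorem dimq : S_dimq`.
`LL z w` (`Pool/Agent/Q164/MPp/Zlim.lean`) is the module of the integral systems `F` with `Cf z w F`;
here `z i = (p i).rep`, `w i = (p (σ i)).rep`. Let `V` be the `ℂ`-subspace of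
`(Fin (N + 1) × E (N + 1) d → ℂ)` of the `g` such that for every `i` the vector
`(∑ α, g (j, α) z_i ^ α)_j` is a multiple of `w i`. It is the kernel of a linear map to
`∏ i, (ℂ ^ (N + 1) / ℂ w i)`, of dimension `m N`, so `dim V ≥ Q - m N`. `V` is stable under the
automorphisms `τ` of `ℂ` (acting on coordinates): there are `k = π i` with `τ (z i)` proportional to
`z k` and `τ (w i)` to `w k`, and `π` is a bijection (injective, as the `p i` are different). So by
`Pool.Agent.TH119.MX.defOver_of_aut` with `F = ⊥` the space `V` is spanned by its vectors with rational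
coordinates. So `dim V` of these are linearly independent over `ℂ`; multiply by a common denominator:
they are integral, lie in `LL z w`, and are linearly independent over `ℤ`. -/
def S_dimq : Prop :=
  ∀ N d m : ℕ, ∀ (σ : Fin m → Fin m) (p : Fin m → Pt N), Function.Injective p →
    Stb (Gph (σ, p)) → QQ N d - m * N ≤
      Module.finrank ℤ (Pool.Agent.Q164.MPp.LL (d := d) (fun i => (p i).rep) fun i => (p (σ i)).rep)

/-- **JOB LOWC** (0.4 h), `theorem lowc : S_lowc`.
In the proof of `rank_le` in `Pool/Agent/Q164/MPp/Zlim.lean` (step `key`): with `s = finrank L` there is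
`c` such that for `K ≥ 1` there are at least `K ^ s` elements of `L` in the box of size `K c`. For
`H ≥ c` take `K = ⌊H / c⌋ ≥ H / (2 c)`; for `1 ≤ H < c` the zero vector suffices. -/
def S_lowc : Prop :=
  ∀ (ι : Type) [Fintype ι] (L : Submodule ℤ (ι → ℤ)), ∃ c : ℝ, 0 < c ∧ ∀ H : ℕ, 1 ≤ H →
    c * (H : ℝ) ^ (Module.finrank ℤ L) ≤ ({g : ι → ℤ | (∀ i, |g i| ≤ (H : ℤ)) ∧ g ∈ L}.ncard : ℝ)

/-- **JOB POSI** (0.7 h),
`theorem posi (h1 : S_exi) (h2 : S_dimq) (h3 : S_lowc) (h4 : S_sz) (h5 : S_nzp) : S_posi`.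
`L = LL z w` as in JOB DIMQ, `s = finrank L ≥ Q - m N ≥ 1`. `F₀` from `S_exi`, `P` the polynomial of
`S_nzp` for `F₀`; `P (F₀) ≠ 0` and `F₀ ∈ L`, so by `S_sz` with `r = s` at most `C H ^ (s - 1)` elements
of `L` in the box are zeros of `P`; by `S_lowc` there are at least `c H ^ s` elements, so at least
`(c / 2) H ^ s` of them are not zeros of `P` for `H ≥ 2 C / c`; these have no common zeros. (`count_eq`
and `mem_LL` in `Pool/Agent/Q164/MPp/Zlim.lean`; `Cf` is `∀ i, Im F (p i) (p (σ i))` by definition;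
`m N < Q`, as `m ≤ d`.) -/
def S_posi : Prop :=
  ∀ N d m : ℕ, 1 ≤ N → 1 ≤ m → m ≤ d → ∀ (σ : Fin m → Fin m) (p : Fin m → Pt N),
    Function.Injective p → Stb (Gph (σ, p)) → ∃ c : ℝ, 0 < c ∧ ∀ᶠ H : ℕ in atTop,
      c * (H : ℝ) ^ (QQ N d - m * N) ≤ cnt N d H (fun F => ∀ i, Im F (p i) (p (σ i)))

/-- **JOB ONLY** (0.5 h), `theorem onl : S_onl`.
`port` is the graph of `F` on its small points (`hasP_port` in `Law.lean`). For `x ∈ port`:
`conjP τ x.1` is a small point (if `x.1 = mk z`, `z = φ (P)` for `P` over `K`, then `x.1.rep = a z` for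
some `a ≠ 0` and `conjP τ x.1 = mk (τ ∘ φ) (P)`, the embedding `τ ∘ φ`), and `Im F x.1 x.2` implies
`Im F (conjP τ x.1) (conjP τ x.2)`, as the coefficients of `F` are integers (`ev_map`, `ev_smul`). -/
def S_onl : Prop :=
  ∀ (N D d : ℕ) (θ : ℝ) (H : ℕ) (F : Sy N d), NoZero F → Stb (port N D θ H F)

end Pool.Agent.Q256.MP
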